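import Pool.Agent.helper98.B2.GA
import Pool.Agent.helper80.B2.W1
import Pool.Agent.helper58.B2.W2
import Pool.Agent.helper97.B2.T3a
import Pool.Agent.helper15.B2.T3c
import Pool.Agent.helper30.B2.LA2

/-! # MP_b2b189_gt (S13780), b2:NGS: no globally simple real eigenvalue -/

set_option autoImplicit false

namespace Pool.Agent.helper68.B2

open scoped ContDiff Topology Matrix
open Matrix Set Filter

/-- the form evaluated on a frame field -/
theorem NGS_form_J (α : E4 → V3) {y : E4} (hy : y ≠ 0) (j : Fin 3) : form α y (J j y) = α y j := by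
  have h1 : ‖y‖ ^ 2 ≠ 0 := by positivity
  unfold form
  rw [_root_.sum_apply]
  have h2 : ∀ i : Fin 3, ((α y i / ‖y‖ ^ 2) • (innerSL ℝ (J i y))) (J j y)
      = if i = j then α y j else 0 := by
    intro i
    rw [_root_.smul_apply, innerSL_apply_apply]
    have h3 : inner ℝ (J i y) (J j y) = if i = j then ‖y‖ ^ 2 else 0 := by
      have := congrFun (comps_fld (ee j) hy) i
      unfold comps at this
      rw [B0a_fld_ee] at this
      rw [div_eq_iff h1] at this
      rw [this]
      by_cases hij : i = j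
      · subst hij; simp [ee]
      · simp [ee, hij]
    rw [h3]
    by_cases hij : i = j
    · subst hij; simp; field_simp
    · simp [hij]
  rw [Finset.sum_congr rfl (fun i _ => h2 i)]
  simp

/-- symmetric derivative of the form gives the frame version of closedness -/
theorem NGS_closedF (α : E4 → V3) {x : E4} (hx : x ≠ 0) (hα : DifferentiableAt ℝ α x)
    (hs : ∀ w w' : E4, fderiv ℝ (form α) x w w' = fderiv ℝ (form α) x w' w) (i j : Fin 3) :
    Dv (fun y => α y j) (ee i) x - Dv (fun y => α y i) (ee j) x = 2 * ∑ k, eps i j k * α x k := by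
  have hd : DifferentiableAt ℝ (form α) x := by
    unfold form
    have hc : ∀ i : Fin 3, DifferentiableAt ℝ (fun y => α y i) x := fun i =>
      (differentiableAt_pi.1 hα) i
    have hn : DifferentiableAt ℝ (fun y : E4 => ‖y‖ ^ 2) x := (contDiff_norm_sq ℝ (n := 1)).differentiable (by norm_num) x
    have hn0 : ‖x‖ ^ 2 ≠ 0 := by positivity
    refine DifferentiableAt.fun_sum fun i _ => ?_
    have h4 : DifferentiableAt ℝ (fun y => α y i / ‖y‖ ^ 2) x := by
      simp only [div_eq_mul_inv]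
      exact (hc i).mul (hn.inv hn0)
    refine DifferentiableAt.smul h4 ?_
    exact ((innerSL ℝ (E := E4)).differentiableAt).comp x (J i).differentiableAt
  have key : ∀ i j : Fin 3, Dv (fun y => α y j) (ee i) x
      = fderiv ℝ (form α) x (J i x) (J j x) + form α x (J j (J i x)) := by
    intro i j
    have h1 : (fun y => α y j) =ᶠ[𝓝 x] fun y => form α y (J j y) := by
      filter_upwards [isOpen_compl_singleton.mem_nhds hx] with y hy
      exact (NGS_form_J α hy j).symm
    unfold Dv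
    rw [h1.fderiv_eq, B0a_fld_ee]
    have h2 := (hd.hasFDerivAt.clm_apply (J j).hasFDerivAt (x := x)).fderiv
    rw [h2]
    simp
    ring
  rw [key i j, key j i, hs (J j x) (J i x)]
  have h3 : form α x (J j (J i x)) - form α x (J i (J j x)) = 2 * ∑ k, eps i j k * α x k := by
    rw [← map_sub, J_J i j x, map_sum, Finset.mul_sum]
    refine Finset.sum_congr rfl fun k _ => ?_
    rw [map_smul, NGS_form_J α hx k, smul_eq_mul]
    ring
  linarith

namespace Geo
variable (S : Geo)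

theorem NGS_hom_Ku {μ : E4 → ℝ} (hH : Hom μ) : Hom (fun x => S.Ku (μ x) x) := by
  intro t ht x
  show S.K (μ (t • x)) (t • x) * (S.G (t • x))⁻¹ = S.K (μ x) x * (S.G x)⁻¹
  unfold K
  rw [hH t ht x, S.homL t ht x, S.homG t ht x]

theorem NGS_sm_Ku {μ : E4 → ℝ} {x : E4} (hx : x ≠ 0) (hμ : ContDiffAt ℝ ∞ μ x) :
    ContDiffAt ℝ ∞ (fun x => S.Ku (μ x) x) x := by
  have h1 : ContDiffAt ℝ ∞ (fun y => S.L y - μ y • (1 : M3)) x :=
    (S.smL.contDiffAt hx).sub (hμ.smul contDiffAt_const)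
  have h2 := contDiffAt_adjugate h1
  have h3 : ContDiffAt ℝ ∞ (fun y => (S.G y)⁻¹) x :=
    contDiffAt_inv (S.smG.contDiffAt hx) (S.det_neg x hx).ne
  exact B0b_contDiffAt_bilin B0b_bil_mul h2 h3

theorem NGS_SA {x : E4} (hx : x ≠ 0) (m : ℝ) : SA (S.G x) (S.L x - m • (1 : M3)) := by
  unfold SA
  rw [Matrix.mul_sub, Matrix.transpose_sub, S.selfadj x hx]
  simp [S.symm x hx]

theorem no_global_simple (μ : E4 → ℝ) (hc : ContinuousOn μ {0}ᶜ) (hH : Hom μ)
    (hroot : ∀ x, x ≠ 0 → (S.L x - μ x • (1 : M3)).det = 0)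
    (hs : ∀ x, x ≠ 0 → (S.L x - μ x • (1 : M3)).adjugate.trace ≠ 0) : False := by
  have hsm : ContDiffOn ℝ ∞ μ {0}ᶜ :=
    T3_smooth S isOpen_compl_singleton (by simp) hc (fun x hx => hroot x hx) (fun x hx => hs x hx)
  have hopen : IsOpen ({0}ᶜ : Set E4) := isOpen_compl_singleton
  have hKsm : ∀ x : E4, x ≠ 0 → ContDiffAt ℝ ∞ (fun x => S.Ku (μ x) x) x := fun x hx =>
    S.NGS_sm_Ku hx (hsm.contDiffAt (hopen.mem_nhds hx))
  obtain ⟨s, hs1, T, hTc, hTH, hT⟩ := W2_root (fun x => S.Ku (μ x) x)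
    (fun x hx => (hKsm x hx).continuousAt.continuousWithinAt) (S.NGS_hom_Ku hH) (by
      intro x hx
      obtain ⟨s, w, hs1, hw, hw2, hw3, hw4⟩ := LA_adj_root ⟨S.symm x hx, S.det_neg x hx, S.pos x hx⟩
        (S.NGS_SA hx (μ x)) (hroot x hx)
      refine ⟨w, ?_, s, hs1, hw⟩
      rintro rfl
      apply hs x hx
      rw [← hw4]
      simp [bil])
  have hTsm : ContDiffOn ℝ ∞ T {0}ᶜ := by
    refine W2_smooth (fun x => S.Ku (μ x) x) T s hs1 _ hopen ?_ hTc (fun x hx => hT x hx)
    intro i j x hx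
    exact ((contDiffAt_entries.1 (hKsm x hx)) i j).contDiffWithinAt
  have hR : IsRoot S {0}ᶜ μ s T := by
    refine ⟨⟨hopen, by simp, ?_⟩, hH, hTH, hsm, hTsm, hs1, fun x hx => hroot x hx,
      fun x hx => hs x hx, ?_⟩
    · intro x hx t ht
      exact smul_ne_zero ht.ne' hx
    · intro x hx
      have h1 := (hT x hx).2
      have h2 : (S.L x - μ x • (1 : M3)).adjugate = S.Ku (μ x) x * S.G x := by
        unfold Ku K
        rw [Matrix.mul_assoc, Matrix.nonsing_inv_mul _ (by
          simpa using (S.det_neg x hx).ne), Matrix.mul_one]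
      rw [h2, h1, Matrix.smul_mul, GA_vecMulVec_mul, S.symm x hx]
  have hg : ∀ x, x ≠ 0 → S.g x (T x) (T x) ≠ 0 := by
    intro x hx h0
    apply hs x hx
    rw [hR.adj x hx, Matrix.trace_smul, GA_trace_vecMulVec]
    have : T x ⬝ᵥ (S.G x *ᵥ T x) = 0 := h0
    rw [this]; simp
  have hα : ∀ x : E4, x ≠ 0 → ContDiffAt ℝ ∞
      (fun y => (S.g y (T y) (T y))⁻¹ • (S.G y *ᵥ T y)) x := by
    intro x hx
    have hT1 : ContDiffAt ℝ ∞ T x := hTsm.contDiffAt (hopen.mem_nhds hx)
    have hG1 := S.smG.contDiffAt hx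
    exact ((contDiffAt_bil hG1 hT1 hT1).inv (hg x hx)).smul (contDiffAt_mulVec hG1 hT1)
  have hαH : Hom (fun y => (S.g y (T y) (T y))⁻¹ • (S.G y *ᵥ T y)) := by
    intro t ht x
    show (bil (S.G (t • x)) (T (t • x)) (T (t • x)))⁻¹ • (S.G (t • x) *ᵥ T (t • x)) = _
    rw [S.homG t ht x, hTH t ht x]
    rfl
  refine W1_contra (fun y => (S.g y (T y) (T y))⁻¹ • (S.G y *ᵥ T y)) (fun x hx => (hα x hx).of_le (by simp))
    (fun x hx => hαH.radial hx) ?_ ?_
  · intro x hx
    exact NGS_closedF _ hx ((hα x hx).differentiableAt (by simp)) (fun w w' => T3_closed S hR hx w w')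
  · intro x hx h0
    have h0' : (S.g x (T x) (T x))⁻¹ • (S.G x *ᵥ T x) = 0 := h0
    have h1 : S.G x *ᵥ T x = 0 := by
      rcases smul_eq_zero.1 h0' with h | h
      · exact absurd (inv_eq_zero.1 h) (hg x hx)
      · exact h
    apply hg x hx
    show T x ⬝ᵥ (S.G x *ᵥ T x) = 0
    rw [h1]; simp

end Geo

end Pool.Agent.helper68.B2
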