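import Pool.Agent.helper52.B2.T4E
import Pool.Agent.helper52.B2.NGS

/-! # MP_b2b189_gt (S13780), b2:T4: all eigenvalues are real -/

set_option autoImplicit false

namespace Pool.Agent.helper68.B2

open scoped ContDiff Topology Matrix
open Matrix Set Filter

theorem T4_detR (A : M3) (w : ℝ) : (A - w • (1 : M3)).det
    = A.det - A.adjugate.trace * w + A.trace * w ^ 2 - w ^ 3 := by
  simp [Matrix.det_fin_three, Matrix.adjugate_fin_three, Matrix.trace, Fin.sum_univ_three]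
  ring

theorem T4_detR' (A : M3) (w : ℝ) : (w • (1 : M3) - A).det
    = w ^ 3 - A.trace * w ^ 2 + A.adjugate.trace * w - A.det := by
  simp [Matrix.det_fin_three, Matrix.adjugate_fin_three, Matrix.trace, Fin.sum_univ_three]
  ring

theorem T4_tradjR (A : M3) (w : ℝ) : (A - w • (1 : M3)).adjugate.trace
    = A.adjugate.trace - 2 * A.trace * w + 3 * w ^ 2 := by
  simp [Matrix.adjugate_fin_three, Matrix.trace, Fin.sum_univ_three]
  ring

theorem T4_F (A : M3) (w : ℂ) : (T4_C A - w • (1 : T4M)).det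
    = (A.det : ℂ) - (A.adjugate.trace : ℂ) * w + (A.trace : ℂ) * w ^ 2 - w ^ 3 := by
  rw [T4_det_expand]
  have hdet : (T4_C A).det = (A.det : ℂ) := by
    simp [Matrix.det_fin_three, T4_C_apply]
  have hadj : (T4_C A).adjugate.trace = (A.adjugate.trace : ℂ) := by
    simp [Matrix.adjugate_fin_three, T4_C_apply, Matrix.trace, Fin.sum_univ_three]
  rw [hdet, hadj, T4_C_trace]

theorem T4_exists_root (t e d : ℂ) : ∃ w : ℂ, d - e * w + t * w ^ 2 - w ^ 3 = 0 := by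
  have hp : (Polynomial.X ^ 3 - Polynomial.C t * Polynomial.X ^ 2 + Polynomial.C e * Polynomial.X
      - Polynomial.C d : Polynomial ℂ).degree = 3 := by
    compute_degree!
  obtain ⟨w, hw⟩ := IsAlgClosed.exists_root (Polynomial.X ^ 3 - Polynomial.C t
    * Polynomial.X ^ 2 + Polynomial.C e * Polynomial.X - Polynomial.C d : Polynomial ℂ)
    (by rw [hp]; norm_num)
  refine ⟨w, ?_⟩
  simp [Polynomial.IsRoot] at hw
  linear_combination -hw

/-- if all complex roots are real, the characteristic polynomial splits over the reals -/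
theorem T4_split (A : M3) (h : ∀ w : ℂ, (T4_C A - w • (1 : T4M)).det = 0 → w.im = 0) :
    ∃ a b c : ℝ, RR3 A a b c := by
  simp only [T4_F] at h
  obtain ⟨w, hw⟩ := T4_exists_root (A.trace : ℂ) (A.adjugate.trace : ℂ) (A.det : ℂ)
  have hwi := h w hw
  obtain ⟨a, rfl⟩ : ∃ a : ℝ, w = (a : ℂ) := ⟨w.re, by apply Complex.ext <;> simp [hwi]⟩
  have ha : A.det - A.adjugate.trace * a + A.trace * a ^ 2 - a ^ 3 = 0 := by exact_mod_cast hw
  -- the quadratic factor
  obtain ⟨s, hs⟩ := IsAlgClosed.exists_pow_nat_eq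
    ((((a - A.trace) ^ 2 - 4 * (A.adjugate.trace + a * (a - A.trace)) : ℝ) : ℂ)) (n := 2)
    (by norm_num)
  set u : ℂ := ((A.trace - a : ℝ) + s) / 2 with hu
  have hu2 : u ^ 2 + ((a - A.trace : ℝ) : ℂ) * u
      + ((A.adjugate.trace + a * (a - A.trace) : ℝ) : ℂ) = 0 := by
    rw [hu]
    push_cast at hs ⊢
    linear_combination (1 / 4 : ℂ) * hs
  have hui : u.im = 0 := by
    apply h
    have ha' : (A.det : ℂ) - (A.adjugate.trace : ℂ) * a + (A.trace : ℂ) * a ^ 2 - a ^ 3 = 0 := hw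
    push_cast at hu2
    linear_combination (-(u - a)) * hu2 + ha'
  obtain ⟨b, hb⟩ : ∃ b : ℝ, u = (b : ℂ) := ⟨u.re, by apply Complex.ext <;> simp [hui]⟩
  rw [hb] at hu2
  have hb2 : b ^ 2 + (a - A.trace) * b + (A.adjugate.trace + a * (a - A.trace)) = 0 := by
    exact_mod_cast hu2
  refine ⟨a, b, A.trace - a - b, fun t => ?_⟩
  rw [T4_detR']
  linear_combination (t - a) * hb2 - ha

theorem T4_bound {t e d : ℝ} {w : ℂ} (h : (d : ℂ) - (e : ℂ) * w + (t : ℂ) * w ^ 2 - w ^ 3 = 0) :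
    ‖w‖ ≤ 1 + (|t| + |e| + |d|) := by
  by_contra hcon
  push Not at hcon
  have ht := abs_nonneg t
  have he := abs_nonneg e
  have hd := abs_nonneg d
  have h1 : 1 < ‖w‖ := by linarith
  have h2 : w ^ 3 = (d : ℂ) - (e : ℂ) * w + (t : ℂ) * w ^ 2 := by linear_combination -h
  have h3 : ‖w‖ ^ 3 ≤ |d| + |e| * ‖w‖ + |t| * ‖w‖ ^ 2 := by
    rw [← norm_pow, h2]
    refine (norm_add_le _ _).trans ?_
    refine add_le_add ((norm_sub_le _ _).trans (add_le_add ?_ ?_)) ?_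
    · simp
    · simp
    · simp
  have h4 : |d| + |e| * ‖w‖ + |t| * ‖w‖ ^ 2 ≤ (|t| + |e| + |d|) * ‖w‖ ^ 2 := by
    have h5 : 1 ≤ ‖w‖ ^ 2 := by nlinarith
    have h6 : ‖w‖ ≤ ‖w‖ ^ 2 := by nlinarith
    nlinarith [mul_le_mul_of_nonneg_left h5 hd, mul_le_mul_of_nonneg_left h6 he]
  have h7 : (|t| + |e| + |d|) * ‖w‖ ^ 2 < ‖w‖ * ‖w‖ ^ 2 := by
    apply mul_lt_mul_of_pos_right
    · linarith
    · positivity
  nlinarith

namespace Geo
variable (S : Geo)

theorem T4_F_cont : ContinuousOn (fun q : E4 × ℂ => (T4_C (S.L q.1) - q.2 • (1 : T4M)).det)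
    (({0}ᶜ : Set E4) ×ˢ (univ : Set ℂ)) := by
  refine ContDiffOn.continuousOn (𝕜 := ℝ) (n := ∞) (T4_det_smooth fun i j => ?_)
  have h1 : ContDiffOn ℝ ∞ (fun y => S.L y i j) {0}ᶜ := fun y hy =>
    ((contDiffAt_entries.1 (S.smL.contDiffAt hy)) i j).contDiffWithinAt
  have h2 : ContDiffOn ℝ ∞ (fun q : E4 × ℂ => S.L q.1 i j) (({0}ᶜ : Set E4) ×ˢ (univ : Set ℂ)) :=
    h1.comp contDiffOn_fst (fun q hq => hq.1)
  have h3 : ContDiffOn ℝ ∞ (fun q : E4 × ℂ => (S.L q.1 i j : ℂ) - q.2 * (1 : T4M) i j)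
      (({0}ᶜ : Set E4) ×ˢ (univ : Set ℂ)) :=
    (T4_ofReal_smooth h2).sub (contDiffOn_snd.mul contDiffOn_const)
  exact h3

/-- maximum of the imaginary part -/
theorem T4_max {x₁ : E4} (hx₁ : x₁ ≠ 0) {w₁ : ℂ}
    (h₁ : (T4_C (S.L x₁) - w₁ • (1 : T4M)).det = 0) :
    ∃ (p : E4) (z₀ : ℂ), p ≠ 0 ∧ (T4_C (S.L p) - z₀ • (1 : T4M)).det = 0 ∧
      ∀ y : E4, y ≠ 0 → ∀ w : ℂ, (T4_C (S.L y) - w • (1 : T4M)).det = 0 → w.im ≤ z₀.im := by
  have hK : IsCompact (Metric.sphere (0 : E4) 1) := isCompact_sphere 0 1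
  have hn0 : ∀ x ∈ Metric.sphere (0 : E4) 1, x ≠ 0 := by
    rintro x hx rfl
    simp at hx
  have hcont : ContinuousOn (fun x => 1 + (|(S.L x).trace| + |(S.L x).adjugate.trace|
      + |(S.L x).det|)) (Metric.sphere (0 : E4) 1) := by
    intro x hx
    have hL := S.smL.contDiffAt (hn0 x hx)
    have h1 := (contDiffAt_trace hL).continuousAt
    have h2 := (contDiffAt_trace (contDiffAt_adjugate hL)).continuousAt
    have h3 := (contDiffAt_det hL).continuousAt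
    exact (continuousAt_const.add ((h1.abs.add h2.abs).add h3.abs)).continuousWithinAt
  obtain ⟨B, hB⟩ := hK.bddAbove_image hcont
  have hB' : ∀ x ∈ Metric.sphere (0 : E4) 1, ∀ w : ℂ,
      (T4_C (S.L x) - w • (1 : T4M)).det = 0 → ‖w‖ ≤ B := by
    intro x hx w hw
    rw [T4_F] at hw
    exact (T4_bound hw).trans (hB (mem_image_of_mem _ hx))
  have hKK : IsCompact (Metric.sphere (0 : E4) 1 ×ˢ Metric.closedBall (0 : ℂ) B) :=
    hK.prod (isCompact_closedBall _ _)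
  have hR : IsCompact ((Metric.sphere (0 : E4) 1 ×ˢ Metric.closedBall (0 : ℂ) B) ∩
      (fun q : E4 × ℂ => (T4_C (S.L q.1) - q.2 • (1 : T4M)).det) ⁻¹' {0}) := by
    refine hKK.of_isClosed_subset ?_ inter_subset_left
    refine ContinuousOn.preimage_isClosed_of_isClosed ?_ hKK.isClosed isClosed_singleton
    exact S.T4_F_cont.mono fun q hq => ⟨hn0 _ hq.1, trivial⟩
  have hnorm : ∀ y : E4, y ≠ 0 → ∀ w : ℂ, (T4_C (S.L y) - w • (1 : T4M)).det = 0 →
      ((‖y‖⁻¹ • y, w) : E4 × ℂ) ∈ (Metric.sphere (0 : E4) 1 ×ˢ Metric.closedBall (0 : ℂ) B) ∩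
      (fun q : E4 × ℂ => (T4_C (S.L q.1) - q.2 • (1 : T4M)).det) ⁻¹' {0} := by
    intro y hy w hw
    have h1 : ‖y‖⁻¹ • y ∈ Metric.sphere (0 : E4) 1 := by
      rw [mem_sphere_zero_iff_norm, norm_smul, norm_inv, norm_norm,
        inv_mul_cancel₀ (norm_ne_zero_iff.2 hy)]
    have h2 : (T4_C (S.L (‖y‖⁻¹ • y)) - w • (1 : T4M)).det = 0 := by
      rw [S.homL _ (inv_pos.2 (norm_pos_iff.2 hy)) y]
      exact hw
    exact ⟨⟨h1, by simpa using hB' _ h1 w h2⟩, h2⟩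
  obtain ⟨⟨p, z₀⟩, hp, hpm⟩ := hR.exists_isMaxOn ⟨_, hnorm x₁ hx₁ w₁ h₁⟩
    (f := fun q : E4 × ℂ => q.2.im) (Complex.continuous_im.comp continuous_snd).continuousOn
  refine ⟨p, z₀, hn0 p hp.1.1, hp.2, fun y hy w hw => ?_⟩
  exact hpm (hnorm y hy w hw)

theorem T4_allreal : ∀ x : E4, x ≠ 0 → ∀ w : ℂ, (T4_C (S.L x) - w • (1 : T4M)).det = 0 →
    w.im = 0 := by
  by_contra hcon
  push Not at hcon
  obtain ⟨x₁, hx₁, w₁, hw₁, him₁⟩ := hcon
  obtain ⟨w₂, hw₂, him₂⟩ : ∃ w₂ : ℂ, (T4_C (S.L x₁) - w₂ • (1 : T4M)).det = 0 ∧ 0 < w₂.im := by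
    rcases lt_or_gt_of_ne him₁ with h | h
    · refine ⟨(starRingEnd ℂ) w₁, ?_, by simpa using h⟩
      rw [T4_F] at hw₁ ⊢
      have h1 := congrArg (starRingEnd ℂ) hw₁
      simpa using h1
    · exact ⟨w₁, hw₁, h⟩
  obtain ⟨p, z₀, hp, hpz, hmax⟩ := S.T4_max hx₁ hw₂
  have him : 0 < z₀.im := lt_of_lt_of_le him₂ (hmax x₁ hx₁ w₂ hw₂)
  have hconst := const_of_locally (fun y : E4 => (T4_C (S.L y) - z₀ • (1 : T4M)).det = 0) (by
    intro x hx
    by_cases h : (T4_C (S.L x) - z₀ • (1 : T4M)).det = 0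
    · filter_upwards [S.T4_local hx him h hmax] with y hy
      exact propext ⟨fun _ => h, fun _ => hy⟩
    · have hc : ContinuousAt (fun y : E4 => (T4_C (S.L y) - z₀ • (1 : T4M)).det) x := by
        have h1 := S.T4_F_cont.continuousAt ((isOpen_compl_singleton.prod isOpen_univ).mem_nhds
          (show ((x, z₀) : E4 × ℂ) ∈ ({0}ᶜ : Set E4) ×ˢ (univ : Set ℂ) from ⟨hx, trivial⟩))
        exact ContinuousAt.comp (f := fun y : E4 => (y, z₀)) h1
          (continuousAt_id.prodMk continuousAt_const)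
      filter_upwards [hc.eventually_ne h] with y hy
      exact propext ⟨fun h' => absurd h' hy, fun h' => absurd h' h⟩)
  have hall : ∀ y : E4, y ≠ 0 → (T4_C (S.L y) - z₀ • (1 : T4M)).det = 0 := by
    intro y hy
    have := hconst p y hp hy
    simp only [eq_iff_iff] at this
    exact this.1 hpz
  -- coefficients
  have hcoef : ∀ y : E4, y ≠ 0 →
      (S.L y).adjugate.trace = 2 * (S.L y).trace * z₀.re - 3 * z₀.re ^ 2 + z₀.im ^ 2 ∧
      (S.L y).det = (z₀.re ^ 2 + z₀.im ^ 2) * ((S.L y).trace - 2 * z₀.re) := by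
    intro y hy
    have h1 := hall y hy
    rw [T4_F] at h1
    have hre := congrArg Complex.re h1
    have hi := congrArg Complex.im h1
    simp [pow_succ] at hre hi
    have h2 : (S.L y).adjugate.trace = 2 * (S.L y).trace * z₀.re - 3 * z₀.re ^ 2 + z₀.im ^ 2 := by
      apply mul_left_cancel₀ him.ne'
      linear_combination -hi
    refine ⟨h2, ?_⟩
    linear_combination hre + z₀.re * h2
  refine S.no_global_simple (fun y => (S.L y).trace - 2 * z₀.re) ?_ ?_ ?_ ?_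
  · intro x hx
    exact ((contDiffAt_trace (S.smL.contDiffAt hx)).continuousAt.sub
      continuousAt_const).continuousWithinAt
  · intro t ht y
    show (S.L (t • y)).trace - _ = _
    rw [S.homL t ht y]
  · intro x hx
    obtain ⟨h1, h2⟩ := hcoef x hx
    rw [T4_detR, h1, h2]
    ring
  · intro x hx
    obtain ⟨h1, h2⟩ := hcoef x hx
    rw [T4_tradjR, h1]
    have : 2 * (S.L x).trace * z₀.re - 3 * z₀.re ^ 2 + z₀.im ^ 2 - 2 * (S.L x).trace *
        ((S.L x).trace - 2 * z₀.re) + 3 * ((S.L x).trace - 2 * z₀.re) ^ 2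
        = ((S.L x).trace - 3 * z₀.re) ^ 2 + z₀.im ^ 2 := by ring
    rw [this]
    positivity

/-- all eigenvalues are real -/
theorem real_roots : ∀ x, x ≠ 0 → ∃ a b c : ℝ, RR3 (S.L x) a b c :=
  fun x hx => T4_split (S.L x) (S.T4_allreal x hx)

end Geo

end Pool.Agent.helper68.B2
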