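import Pool.Agent.helper98.B2.GA
import Pool.Agent.helper80.B2.W8

/-! # MP_b2b189_gt (S13780), b2:T4, part A: complex linear algebra -/

set_option autoImplicit false

namespace Pool.Agent.helper68.B2

open scoped ContDiff Topology Matrix
open Matrix Set Filter

/-- complex matrices -/
abbrev T4M := Matrix (Fin 3) (Fin 3) ℂ
/-- complex vectors -/
abbrev T4V := Fin 3 → ℂ

/-- complexification of a real matrix -/
noncomputable def T4_C : M3 →ₗ[ℝ] T4M where
  toFun A := A.map (fun r => (r : ℂ))
  map_add' A B := by ext i j; simp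
  map_smul' c A := by ext i j; simp

/-- complexification of a real vector -/
noncomputable def T4_R : V3 →ₗ[ℝ] T4V where
  toFun v i := (v i : ℂ)
  map_add' A B := by ext i; simp
  map_smul' c A := by ext i; simp

theorem T4_C_apply (A : M3) (i j : Fin 3) : T4_C A i j = (A i j : ℂ) := rfl
theorem T4_R_apply (v : V3) (i : Fin 3) : T4_R v i = (v i : ℂ) := rfl

section LinAlg
variable {K : Type*} [Field K]

theorem T4_adj_formula (A : Matrix (Fin 3) (Fin 3) K) :
    A.adjugate = A * A - A.trace • A + A.adjugate.trace • (1 : Matrix (Fin 3) (Fin 3) K) := by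
  ext i j
  fin_cases i <;> fin_cases j <;>
    simp [Matrix.adjugate_fin_three, Matrix.mul_apply, Fin.sum_univ_three, Matrix.trace] <;> ring

/-- a matrix with vanishing adjugate has rank at most one -/
theorem T4_rank_one {M : Matrix (Fin 3) (Fin 3) K} (h : M.adjugate = 0) (i j k l : Fin 3) :
    M i k * M j l = M i l * M j k := by
  have h00 := congrFun (congrFun h 0) 0
  have h01 := congrFun (congrFun h 0) 1
  have h02 := congrFun (congrFun h 0) 2
  have h10 := congrFun (congrFun h 1) 0
  have h11 := congrFun (congrFun h 1) 1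
  have h12 := congrFun (congrFun h 1) 2
  have h20 := congrFun (congrFun h 2) 0
  have h21 := congrFun (congrFun h 2) 1
  have h22 := congrFun (congrFun h 2) 2
  simp [Matrix.adjugate_fin_three] at h00 h01 h02 h10 h11 h12 h20 h21 h22
  fin_cases i <;> fin_cases j <;> fin_cases k <;> fin_cases l <;> simp only [Fin.mk_zero, Fin.mk_one, Fin.reduceFinMk, Fin.isValue] <;>
    first
    | ring1
    | linear_combination h00
    | linear_combination h01
    | linear_combination h02
    | linear_combination h10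
    | linear_combination h11
    | linear_combination h12
    | linear_combination h20
    | linear_combination h21
    | linear_combination h22
    | linear_combination -h00
    | linear_combination -h01
    | linear_combination -h02
    | linear_combination -h10
    | linear_combination -h11
    | linear_combination -h12
    | linear_combination -h20
    | linear_combination -h21
    | linear_combination -h22

theorem T4_adj_adj {A : Matrix (Fin 3) (Fin 3) K} (hd : A.det = 0) : A.adjugate.adjugate = 0 := by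
  rw [Matrix.adjugate_adjugate _ (by simp)]
  simp [hd]

/-- the root of the adjugate -/
theorem T4_root {G A : Matrix (Fin 3) (Fin 3) K} (hGK : (G * A.adjugate)ᵀ = G * A.adjugate)
    (hd : A.det = 0) (c : Fin 3 → K) :
    vecMulVec (A.adjugate *ᵥ c) (G *ᵥ (A.adjugate *ᵥ c))
      = (c ⬝ᵥ ((G * A.adjugate) *ᵥ c)) • A.adjugate := by
  have hr := T4_rank_one (T4_adj_adj hd)
  set K' := A.adjugate with hK
  ext i j
  rw [vecMulVec_apply, Matrix.mulVec_mulVec]
  have h1 : ∀ l, ((G * K') *ᵥ c) l = (c ᵥ* (G * K')) l := by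
    intro l
    rw [← Matrix.mulVec_transpose, hGK]
  rw [h1 j]
  have e1 : (c ᵥ* (G * K')) j = ∑ l, ∑ m, c l * G l m * K' m j := by
    simp only [Matrix.vecMul, dotProduct, Matrix.mul_apply, Finset.mul_sum, mul_assoc]
  have e2 : c ⬝ᵥ ((G * K') *ᵥ c) = ∑ l, ∑ m, ∑ k, c l * G l m * K' m k * c k := by
    simp only [Matrix.mulVec, dotProduct, Matrix.mul_apply, Finset.mul_sum, Finset.sum_mul]
    refine Finset.sum_congr rfl fun l _ => ?_
    rw [Finset.sum_comm]
    refine Finset.sum_congr rfl fun m _ => Finset.sum_congr rfl fun k _ => ?_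
    ring
  rw [e1, Matrix.smul_apply, e2, smul_eq_mul]
  have e3 : (K' *ᵥ c) i = ∑ k, K' i k * c k := rfl
  rw [e3, Finset.mul_sum, Finset.sum_mul]
  refine Finset.sum_congr rfl fun l _ => ?_
  rw [Finset.mul_sum, Finset.sum_mul]
  refine Finset.sum_congr rfl fun m _ => ?_
  rw [Finset.sum_mul, Finset.sum_mul]
  refine Finset.sum_congr rfl fun k _ => ?_
  have := hr i m k j
  linear_combination (c k * c l * G l m) * this

theorem T4_exists_c [CharZero K] {M : Matrix (Fin 3) (Fin 3) K} (hM : Mᵀ = M) (h0 : M ≠ 0) :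
    ∃ c : Fin 3 → K, c ⬝ᵥ (M *ᵥ c) ≠ 0 := by
  by_contra hcon
  push Not at hcon
  apply h0
  have hs : ∀ i j, M i j = M j i := fun i j => by
    conv_lhs => rw [← hM]
    rfl
  have key : ∀ i j, M i i + M i j + M j i + M j j = 0 := by
    intro i j
    have := hcon (Pi.single i 1 + Pi.single j 1)
    simp only [Matrix.mulVec_add, add_dotProduct, dotProduct_add, single_dotProduct,
      Matrix.mulVec_single_one, one_mul, Matrix.col_apply] at this
    linear_combination this
  have kd : ∀ i, M i i = 0 := by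
    intro i
    have := key i i
    have h4 : (4 : K) ≠ 0 := by norm_num
    have : 4 * M i i = 0 := by linear_combination this
    exact (mul_eq_zero.1 this).resolve_left h4
  ext i j
  have h1 := key i j
  rw [kd i, kd j, hs j i] at h1
  have h2 : (2 : K) ≠ 0 := by norm_num
  have : 2 * M i j = 0 := by linear_combination h1
  simpa using (mul_eq_zero.1 this).resolve_left h2

theorem T4_bil_add_left (G : Matrix (Fin 3) (Fin 3) K) (u u' v : Fin 3 → K) :
    bil G (u + u') v = bil G u v + bil G u' v := by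
  unfold bil; rw [add_dotProduct]

theorem T4_bil_sub_left (G : Matrix (Fin 3) (Fin 3) K) (u u' v : Fin 3 → K) :
    bil G (u - u') v = bil G u v - bil G u' v := by
  unfold bil; rw [sub_dotProduct]

theorem T4_bil_add_right (G : Matrix (Fin 3) (Fin 3) K) (u v v' : Fin 3 → K) :
    bil G u (v + v') = bil G u v + bil G u v' := by
  unfold bil; rw [mulVec_add, dotProduct_add]

theorem T4_bil_sub_right (G : Matrix (Fin 3) (Fin 3) K) (u v v' : Fin 3 → K) :
    bil G u (v - v') = bil G u v - bil G u v' := by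
  unfold bil; rw [mulVec_sub, dotProduct_sub]

theorem T4_bil_smul_left (G : Matrix (Fin 3) (Fin 3) K) (c : K) (u v : Fin 3 → K) :
    bil G (c • u) v = c * bil G u v := by
  unfold bil; rw [smul_dotProduct, smul_eq_mul]

theorem T4_bil_smul_right (G : Matrix (Fin 3) (Fin 3) K) (c : K) (u v : Fin 3 → K) :
    bil G u (c • v) = c * bil G u v := by
  unfold bil; rw [mulVec_smul, dotProduct_smul, smul_eq_mul]

theorem T4_bil_symm {G : Matrix (Fin 3) (Fin 3) K} (hG : Gᵀ = G) (u v : Fin 3 → K) :
    bil G u v = bil G v u := by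
  unfold bil
  rw [Matrix.dotProduct_mulVec, ← Matrix.mulVec_transpose, hG, dotProduct_comm]

theorem T4_bil_sa {G A : Matrix (Fin 3) (Fin 3) K} (hG : Gᵀ = G) (hA : (G * A)ᵀ = G * A)
    (u v : Fin 3 → K) : bil G (A *ᵥ u) v = bil G u (A *ᵥ v) := by
  have h : Aᵀ * G = G * A := by rw [← hA, Matrix.transpose_mul, hG]
  unfold bil
  rw [← Matrix.vecMul_transpose, ← Matrix.dotProduct_mulVec, Matrix.mulVec_mulVec,
    Matrix.mulVec_mulVec, h]

/-- the pointwise identity behind closedness of `T♭ / g(T,T)` -/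
theorem T4_alg {G A : Matrix (Fin 3) (Fin 3) K} (hG : Gᵀ = G) (hA : (G * A)ᵀ = G * A)
    {T l : Fin 3 → K} (hAT : A *ᵥ T = 0) (hadj : A.adjugate = vecMulVec T (G *ᵥ T))
    {v w T1 T2 : Fin 3 → K} {z1 z2 h1 h2 : K} (hc2 : (2 : K) ≠ 0)
    (E1 : A *ᵥ T1 = z1 • T - (bil G l T • v + bil G v T • l))
    (E1' : A *ᵥ T2 = z2 • T - (bil G l T • w + bil G w T • l))
    (E2 : 2 * bil G T1 T = h1) (E2' : 2 * bil G T2 T = h2)
    (E3 : h1 = 2 * (A.trace * bil G v l - bil G (A *ᵥ v) l) - 2 * A.trace * z1)
    (E3' : h2 = 2 * (A.trace * bil G w l - bil G (A *ᵥ w) l) - 2 * A.trace * z2)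
    (h0 : bil G T T ≠ 0) :
    bil G T T * (bil G T1 w - bil G T2 v) = h1 * bil G T w - h2 * bil G T v ∧
      z1 * bil G T T = 2 * bil G l T * bil G T v := by
  have hsymm := T4_bil_symm hG
  have hsa := T4_bil_sa hG hA
  have htr : A.adjugate.trace = bil G T T := by
    rw [hadj]
    simp [Matrix.trace, vecMulVec_apply, bil, dotProduct]
  have hdec : ∀ u : Fin 3 → K, bil G T T • u
      = bil G T u • T + (A.trace • (A *ᵥ u) - A *ᵥ (A *ᵥ u)) := by
    intro u
    have h3 := congrArg (fun M => M *ᵥ u) (T4_adj_formula A)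
    simp only [Matrix.add_mulVec, Matrix.sub_mulVec, Matrix.smul_mulVec, Matrix.one_mulVec] at h3
    rw [htr, hadj] at h3
    have h4 : vecMulVec T (G *ᵥ T) *ᵥ u = bil G T u • T := by
      rw [Matrix.vecMulVec_mulVec]
      have : (G *ᵥ T) ⬝ᵥ u = bil G T u := by
        rw [hsymm T u]
        unfold bil
        rw [dotProduct_comm]
      ext i
      simp [this, mul_comm]
    rw [h4, ← Matrix.mulVec_mulVec] at h3
    rw [h3]
    abel
  have hTA : ∀ u, bil G T (A *ᵥ u) = 0 := by
    intro u
    rw [← hsa, hAT]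
    simp [bil]
  have hz : ∀ {T1 v : Fin 3 → K} {z1 : K}, A *ᵥ T1 = z1 • T - (bil G l T • v + bil G v T • l) →
      z1 * bil G T T = 2 * bil G l T * bil G T v := by
    intro T1 v z1 E1
    have h5 := congrArg (bil G T) E1
    rw [hTA] at h5
    simp only [T4_bil_sub_right, T4_bil_add_right, T4_bil_smul_right] at h5
    rw [hsymm v T, hsymm T l] at h5
    linear_combination -h5
  have hmain : ∀ {T1 v w : Fin 3 → K} {z1 h1 : K},
      A *ᵥ T1 = z1 • T - (bil G l T • v + bil G v T • l) → 2 * bil G T1 T = h1 →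
      2 * (bil G T T * bil G T1 w) = h1 * bil G T w + 2 * (z1 * A.trace * bil G T w
        - bil G l T * (A.trace * bil G v w - bil G v (A *ᵥ w))
        - bil G v T * (A.trace * bil G l w - bil G l (A *ᵥ w))) := by
    intro T1 v w z1 h1 E1 E2
    have h6 := congrArg (bil G T1) (hdec w)
    rw [T4_bil_smul_right, T4_bil_add_right, T4_bil_sub_right, T4_bil_smul_right,
      T4_bil_smul_right, ← hsa, ← hsa T1 (A *ᵥ w), E1] at h6
    simp only [T4_bil_sub_left, T4_bil_add_left, T4_bil_smul_left] at h6
    rw [hTA w] at h6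
    linear_combination 2 * h6 + bil G T w * E2
  have hz1 := hz E1
  have hz2 := hz E1'
  refine ⟨?_, hz1⟩
  have m1 := hmain (w := w) E1 E2
  have m2 := hmain (w := v) E1' E2'
  have e4 : bil G (A *ᵥ w) l = bil G l (A *ᵥ w) := hsymm _ _
  have e5 : bil G (A *ᵥ v) l = bil G l (A *ᵥ v) := hsymm _ _
  rw [e4, hsymm w l] at E3'
  rw [e5, hsymm v l] at E3
  rw [hsymm v T] at m1
  rw [hsymm w T] at m2
  have e6 : bil G v (A *ᵥ w) = bil G w (A *ᵥ v) := by rw [← hsa v w, hsymm]
  have e7 : bil G v w = bil G w v := hsymm _ _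
  have e8 : z1 * bil G T w = z2 * bil G T v := by
    apply mul_left_cancel₀ h0
    linear_combination bil G T w * hz1 - bil G T v * hz2
  apply mul_left_cancel₀ hc2
  rw [e6, e7] at m1
  linear_combination m1 - m2 + bil G T v * E3' - bil G T w * E3 + 4 * A.trace * e8

end LinAlg

end Pool.Agent.helper68.B2
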