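import Pool.Agent.helper52.B2.T4A

/-! # MP_b2b189_gt (S13780), b2:T4, part B: complex root fields, closedness -/

set_option autoImplicit false

namespace Pool.Agent.helper68.B2

open scoped ContDiff Topology Matrix
open Matrix Set Filter

theorem T4_bl_mulVec : IsBilinearMap ℝ (fun (A : T4M) (V : T4V) => A *ᵥ V) where
  add_left _ _ _ := by simp [add_mulVec]
  smul_left _ _ _ := by simp [smul_mulVec]
  add_right _ _ _ := by simp [mulVec_add]
  smul_right _ _ _ := by simp [mulVec_smul]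

theorem T4_bl_mul : IsBilinearMap ℝ (fun A B : T4M => A * B) where
  add_left _ _ _ := by simp [add_mul]
  smul_left _ _ _ := by simp
  add_right _ _ _ := by simp [mul_add]
  smul_right _ _ _ := by simp

theorem T4_bl_dot : IsBilinearMap ℝ (fun (V W : T4V) => V ⬝ᵥ W) where
  add_left _ _ _ := by simp [add_dotProduct]
  smul_left _ _ _ := by simp
  add_right _ _ _ := by simp [dotProduct_add]
  smul_right _ _ _ := by simp

theorem T4_bl_smulM : IsBilinearMap ℝ (fun (c : ℂ) (W : T4M) => c • W) where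
  add_left _ _ _ := add_smul _ _ _
  smul_left _ _ _ := smul_assoc _ _ _
  add_right _ _ _ := smul_add _ _ _
  smul_right _ _ _ := smul_comm _ _ _

theorem T4_bl_smulV : IsBilinearMap ℝ (fun (c : ℂ) (W : T4V) => c • W) where
  add_left _ _ _ := add_smul _ _ _
  smul_left _ _ _ := smul_assoc _ _ _
  add_right _ _ _ := smul_add _ _ _
  smul_right _ _ _ := smul_comm _ _ _

theorem T4_bl_mulC : IsBilinearMap ℝ (fun (c d : ℂ) => c * d) where
  add_left _ _ _ := add_mul _ _ _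
  smul_left _ _ _ := smul_mul_assoc _ _ _
  add_right _ _ _ := mul_add _ _ _
  smul_right _ _ _ := mul_smul_comm _ _ _

section
variable {v : V3} {x : E4}

theorem T4_H_congr {F : Type*} [NormedAddCommGroup F] [NormedSpace ℝ F] {f g : E4 → F} {d : F}
    (h : f =ᶠ[𝓝 x] g) (hg : B0b_H v x g d) : B0b_H v x f d := by
  obtain ⟨f', h1, h2⟩ := hg
  exact ⟨f', h1.congr_of_eventuallyEq h, h2⟩

theorem T4_H_uniq {F : Type*} [NormedAddCommGroup F] [NormedSpace ℝ F] {f : E4 → F} {d e : F}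
    (h : B0b_H v x f d) (hg : B0b_H v x f e) : d = e := by
  rw [← h.eq, ← hg.eq]

theorem T4_H_const {F : Type*} [NormedAddCommGroup F] [NormedSpace ℝ F] (c : F) :
    B0b_H v x (fun _ => c) 0 := ⟨0, hasFDerivAt_const c x, rfl⟩

theorem T4_H_inv {f : E4 → ℂ} {d : ℂ} (h : B0b_H v x f d) (h0 : f x ≠ 0) :
    B0b_H v x (fun y => (f y)⁻¹) (-(d / f x ^ 2)) := by
  obtain ⟨f', h1, h2⟩ := h
  have h3 : HasDerivAt (fun w : ℂ => w⁻¹) (-(f x ^ 2)⁻¹) (f x) := hasDerivAt_inv h0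
  have h4 := (h3.hasFDerivAt.restrictScalars ℝ).comp x h1
  refine ⟨_, h4, ?_⟩
  simp [h2]
  ring

end

theorem T4_trace_adj (A : T4M) : A.adjugate.trace = (1 / 2 : ℂ) * (A.trace * A.trace - (A * A).trace) := by
  simp [Matrix.adjugate_fin_three, Matrix.trace, Fin.sum_univ_three, Matrix.mul_apply]
  ring

theorem T4_C_mul (A B : M3) : T4_C (A * B) = T4_C A * T4_C B := by
  ext i j
  simp [T4_C_apply, Matrix.mul_apply]

theorem T4_C_one : T4_C (1 : M3) = 1 := by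
  ext i j
  rw [T4_C_apply, Matrix.one_apply, Matrix.one_apply]
  split_ifs <;> simp

theorem T4_C_transpose (A : M3) : T4_C Aᵀ = (T4_C A)ᵀ := rfl

theorem T4_C_mulVec (A : M3) (v : V3) : T4_C A *ᵥ T4_R v = T4_R (A *ᵥ v) := by
  ext i
  simp [T4_C_apply, T4_R_apply, Matrix.mulVec, dotProduct]

theorem T4_C_trace (A : M3) : (T4_C A).trace = (A.trace : ℂ) := by
  simp [Matrix.trace, T4_C_apply]

theorem T4_C_odot (G : M3) (u w : V3) : T4_C (odot G u w) = odot (T4_C G) (T4_R u) (T4_R w) := by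
  unfold odot
  rw [T4_C_mulVec, T4_C_mulVec, map_add]
  ext i j
  simp [T4_C_apply, T4_R_apply, vecMulVec_apply]

theorem T4_C_vecMulVec (u w : V3) : T4_C (vecMulVec u w) = vecMulVec (T4_R u) (T4_R w) := by
  ext i j
  simp [T4_C_apply, T4_R_apply, vecMulVec_apply]

namespace Geo
variable (S : Geo)

/-- the complex form `T♭ / g(T,T)` -/
noncomputable def T4_beta (T : E4 → T4V) (y : E4) : T4V :=
  (bil (T4_C (S.G y)) (T y) (T y))⁻¹ • (T4_C (S.G y) *ᵥ T y)

theorem T4_calc {x : E4} (hx : x ≠ 0) {z : E4 → ℂ} {T : E4 → T4V}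
    (hz : DifferentiableAt ℝ z x) (hT : DifferentiableAt ℝ T x)
    (hroot : ∀ᶠ y in 𝓝 x, (T4_C (S.L y) - z y • (1 : T4M)) *ᵥ T y = 0 ∧
      (T4_C (S.L y) - z y • (1 : T4M)).adjugate = vecMulVec (T y) (T4_C (S.G y) *ᵥ T y))
    (v : V3) :
    ∃ (T1 : T4V) (h1 : ℂ), B0b_H v x T (T1 - T4_C (S.Gam v x) *ᵥ T x) ∧
      B0b_H v x (fun y => bil (T4_C (S.G y)) (T y) (T y)) h1 ∧
      (T4_C (S.L x) - z x • (1 : T4M)) *ᵥ T1 = Dv z v x • T x
        - (bil (T4_C (S.G x)) (T4_R (S.lam x)) (T x) • T4_R v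
          + bil (T4_C (S.G x)) (T4_R v) (T x) • T4_R (S.lam x)) ∧
      2 * bil (T4_C (S.G x)) T1 (T x) = h1 ∧
      h1 = 2 * ((T4_C (S.L x) - z x • (1 : T4M)).trace * bil (T4_C (S.G x)) (T4_R v) (T4_R (S.lam x))
        - bil (T4_C (S.G x)) ((T4_C (S.L x) - z x • (1 : T4M)) *ᵥ T4_R v) (T4_R (S.lam x)))
        - 2 * (T4_C (S.L x) - z x • (1 : T4M)).trace * Dv z v x := by
  have hGT : (T4_C (S.G x))ᵀ = T4_C (S.G x) := by rw [← T4_C_transpose, S.symm x hx]
  have hGL : (T4_C (S.G x) * T4_C (S.L x))ᵀ = T4_C (S.G x) * T4_C (S.L x) := by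
    rw [← T4_C_mul, ← T4_C_transpose, S.selfadj x hx]
  have dG : B0b_H v x (fun y => T4_C (S.G y)) (T4_C (Dv S.G v x)) :=
    (B0b_H_of (S.smG.differentiableAt hx)).lin T4_C
  have dL : B0b_H v x (fun y => T4_C (S.L y)) (T4_C (Dv S.L v x)) :=
    (B0b_H_of (S.smL.differentiableAt hx)).lin T4_C
  have dz : B0b_H v x z (Dv z v x) := B0b_H_of hz
  have dT : B0b_H v x T (Dv T v x) := B0b_H_of hT
  have dz1 : B0b_H v x (fun y => z y • (1 : T4M)) (Dv z v x • (1 : T4M)) :=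
    dz.lin ((LinearMap.toSpanSingleton ℂ T4M 1).restrictScalars ℝ)
  have dA := dL.sub dz1
  have hmain : T4_C (Dv S.L v x) = odot (T4_C (S.G x)) (T4_R v) (T4_R (S.lam x))
      - (T4_C (S.Gam v x) * T4_C (S.L x) - T4_C (S.L x) * T4_C (S.Gam v x)) := by
    have h1 := S.main_v hx v
    unfold nabE od at h1
    rw [← T4_C_odot, ← h1, map_add, map_sub, T4_C_mul, T4_C_mul]
    abel
  have hmet : T4_C (Dv S.G v x) = (T4_C (S.Gam v x))ᵀ * T4_C (S.G x)
      + T4_C (S.G x) * T4_C (S.Gam v x) := by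
    rw [S.metric_v hx v, map_add, T4_C_mul, T4_C_mul, T4_C_transpose]
  set cL := T4_C (S.L x) with hcL
  set cG := T4_C (S.G x) with hcG
  set Γ := T4_C (S.Gam v x) with hΓ
  set l := T4_R (S.lam x) with hl
  set w := T4_R v with hw
  set z' := Dv z v x with hz'
  set T' := Dv T v x with hT'
  set A := cL - z x • (1 : T4M) with hA
  have hsymm := T4_bil_symm hGT
  have hSA : (cG * A)ᵀ = cG * A := by
    rw [hA, Matrix.mul_sub, Matrix.transpose_sub, hGL]
    simp [hGT]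
  have hx0 := hroot.self_of_nhds
  have hAT : A *ᵥ T x = 0 := hx0.1
  have hLT : cL *ᵥ T x = z x • T x := by
    have : cL *ᵥ T x - z x • T x = 0 := by
      rw [hA, Matrix.sub_mulVec, Matrix.smul_mulVec, Matrix.one_mulVec] at hAT
      exact hAT
    exact sub_eq_zero.1 this
  -- derivative of the eigenvalue equation
  have e1 := dA.bilin T4_bl_mulVec dT
  have e2 : B0b_H v x (fun y => (T4_C (S.L y) - z y • (1 : T4M)) *ᵥ T y) 0 :=
    T4_H_congr (hroot.mono fun y hy => hy.1) (T4_H_const 0)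
  have e3 := T4_H_uniq e1 e2
  have hodT : odot cG w l *ᵥ T x = bil cG l (T x) • w + bil cG w (T x) • l := by
    unfold odot
    rw [Matrix.add_mulVec, Matrix.vecMulVec_mulVec, Matrix.vecMulVec_mulVec]
    have h1 : (cG *ᵥ l) ⬝ᵥ T x = bil cG l (T x) := by
      rw [hsymm l (T x)]; unfold bil; rw [dotProduct_comm]
    have h2 : (cG *ᵥ w) ⬝ᵥ T x = bil cG w (T x) := by
      rw [hsymm w (T x)]; unfold bil; rw [dotProduct_comm]
    rw [h1, h2]
    ext i
    simp [mul_comm]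
  have e5 : B0b_H v x (fun y => bil (T4_C (S.G y)) (T y) (T y))
      (2 * bil cG (T' + Γ *ᵥ T x) (T x)) := by
    have e4 := dT.bilin T4_bl_dot (dG.bilin T4_bl_mulVec dT)
    refine e4.congr ?_
    show T' ⬝ᵥ (cG *ᵥ T x) + T x ⬝ᵥ (T4_C (Dv S.G v x) *ᵥ T x + cG *ᵥ T') = _
    rw [hmet, Matrix.add_mulVec, T4_bil_add_left, dotProduct_add, dotProduct_add]
    have h1 : T' ⬝ᵥ (cG *ᵥ T x) = bil cG T' (T x) := rfl
    have h2 : T x ⬝ᵥ (cG *ᵥ T') = bil cG T' (T x) := hsymm _ _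
    have h3 : T x ⬝ᵥ ((Γᵀ * cG) *ᵥ T x) = bil cG (Γ *ᵥ T x) (T x) := by
      unfold bil
      rw [← Matrix.mulVec_mulVec, Matrix.dotProduct_mulVec, Matrix.vecMul_transpose]
    have h4 : T x ⬝ᵥ ((cG * Γ) *ᵥ T x) = bil cG (Γ *ᵥ T x) (T x) := by
      rw [hsymm]
      unfold bil
      rw [← Matrix.mulVec_mulVec]
    rw [h1, h2, h3, h4]
    ring
  refine ⟨T' + Γ *ᵥ T x, 2 * bil cG (T' + Γ *ᵥ T x) (T x), ?_, e5, ?_, rfl, ?_⟩
  · simpa using dT
  · rw [Matrix.mulVec_add]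
    have h1 : A *ᵥ T' = -((T4_C (Dv S.L v x) - z' • (1 : T4M)) *ᵥ T x) := by
      rw [eq_neg_iff_add_eq_zero, add_comm]
      exact e3
    rw [h1, hmain, Matrix.sub_mulVec, Matrix.sub_mulVec, Matrix.sub_mulVec, hodT,
      ← Matrix.mulVec_mulVec, ← Matrix.mulVec_mulVec, hLT, Matrix.smul_mulVec, Matrix.one_mulVec,
      Matrix.mulVec_smul, hA, Matrix.sub_mulVec, Matrix.smul_mulVec, Matrix.one_mulVec]
    abel
  · refine T4_H_uniq e5 ?_
    have f1 := dA.lin (Matrix.traceLinearMap (Fin 3) ℝ ℂ)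
    have f2 := (dA.bilin T4_bl_mul dA).lin (Matrix.traceLinearMap (Fin 3) ℝ ℂ)
    have f3 := (T4_H_const (v := v) (x := x) (1 / 2 : ℂ)).bilin T4_bl_mulC
      ((f1.bilin T4_bl_mulC f1).sub f2)
    have f4 : (fun y => bil (T4_C (S.G y)) (T y) (T y)) =ᶠ[𝓝 x] fun y => (1 / 2 : ℂ) *
        ((Matrix.traceLinearMap (Fin 3) ℝ ℂ) (T4_C (S.L y) - z y • (1 : T4M)) *
          (Matrix.traceLinearMap (Fin 3) ℝ ℂ) (T4_C (S.L y) - z y • (1 : T4M))
          - (Matrix.traceLinearMap (Fin 3) ℝ ℂ) ((T4_C (S.L y) - z y • (1 : T4M))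
            * (T4_C (S.L y) - z y • (1 : T4M)))) := by
      filter_upwards [hroot] with y hy
      have h1 := congrArg Matrix.trace hy.2
      rw [T4_trace_adj] at h1
      have h2 : (vecMulVec (T y) (T4_C (S.G y) *ᵥ T y)).trace
          = bil (T4_C (S.G y)) (T y) (T y) := by
        simp [Matrix.trace, vecMulVec_apply, bil, dotProduct]
      rw [h2] at h1
      exact h1.symm
    refine (T4_H_congr f4 f3).congr ?_
    simp only [Matrix.traceLinearMap_apply]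
    rw [← hcL, ← hA, hmain, zero_mul, zero_add]
    have t1 : (odot cG w l).trace = 2 * bil cG w l := by
      unfold odot
      rw [Matrix.trace_add]
      have h1 : ∀ a b : T4V, (vecMulVec a b).trace = a ⬝ᵥ b := by
        intro a b
        simp [Matrix.trace, vecMulVec_apply, dotProduct]
      rw [h1, h1]
      have h2 : w ⬝ᵥ cG *ᵥ l = bil cG w l := rfl
      have h3 : l ⬝ᵥ cG *ᵥ w = bil cG w l := hsymm _ _
      rw [h2, h3]
      ring
    have t2 : (A * odot cG w l).trace = 2 * bil cG (A *ᵥ w) l := by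
      unfold odot
      rw [Matrix.mul_add, Matrix.trace_add]
      have h1 : ∀ a b : T4V, (A * vecMulVec a b).trace = (A *ᵥ a) ⬝ᵥ b := by
        intro a b
        rw [Matrix.mul_vecMulVec]
        simp [Matrix.trace, vecMulVec_apply, dotProduct]
      rw [h1, h1]
      have h2 : (A *ᵥ w) ⬝ᵥ cG *ᵥ l = bil cG (A *ᵥ w) l := rfl
      have h3 : (A *ᵥ l) ⬝ᵥ cG *ᵥ w = bil cG (A *ᵥ w) l := by
        have : (A *ᵥ l) ⬝ᵥ cG *ᵥ w = bil cG (A *ᵥ l) w := rfl
        rw [this, T4_bil_sa hGT hSA, hsymm]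
      rw [h2, h3]
      ring
    have t3 : (Γ * cL - cL * Γ).trace = 0 := by
      rw [Matrix.trace_sub, Matrix.trace_mul_comm, sub_self]
    have t4 : (A * (Γ * cL - cL * Γ)).trace = 0 := by
      have h1 : A * (Γ * cL - cL * Γ) = (cL * Γ) * cL - cL * (cL * Γ) - z x • (Γ * cL - cL * Γ) := by
        rw [hA, Matrix.sub_mul, Matrix.smul_mul, Matrix.one_mul, Matrix.mul_sub, Matrix.mul_assoc]
      rw [h1, Matrix.trace_sub, Matrix.trace_sub, Matrix.trace_smul, t3,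
        Matrix.trace_mul_comm (cL * Γ) cL]
      simp
    have t5 : (1 : T4M).trace = 3 := by simp [Matrix.trace]
    have t6 : (A * (odot cG w l - (Γ * cL - cL * Γ) - z' • (1 : T4M))).trace
        = 2 * bil cG (A *ᵥ w) l - z' * A.trace := by
      rw [Matrix.mul_sub, Matrix.mul_sub, Matrix.trace_sub, Matrix.trace_sub, t2, t4,
        Matrix.mul_smul, Matrix.mul_one, Matrix.trace_smul]
      simp
    rw [Matrix.trace_add, Matrix.trace_mul_comm (odot cG w l - (Γ * cL - cL * Γ) - z' • (1 : T4M)) A,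
      t6, Matrix.trace_sub, Matrix.trace_sub, t1, t3, Matrix.trace_smul, t5, smul_eq_mul]
    ring

theorem T4_dot_ee (u : T4V) (j : Fin 3) : u ⬝ᵥ T4_R (ee j) = u j := by
  have : T4_R (ee j) = Pi.single j 1 := by
    ext i
    by_cases h : i = j
    · subst h; simp [T4_R_apply, ee]
    · simp [T4_R_apply, ee, h]
  rw [this, dotProduct_single, mul_one]

theorem T4_Gam_ee (i : Fin 3) (x : E4) : S.Gam (ee i) x = S.Γ i x := by
  unfold Gam ee
  rw [Finset.sum_eq_single i]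
  · simp
  · intro j _ hj
    simp [hj]
  · simp

theorem T4_closedC {x : E4} (hx : x ≠ 0) {z : E4 → ℂ} {T : E4 → T4V}
    (hz : DifferentiableAt ℝ z x) (hT : DifferentiableAt ℝ T x)
    (hroot : ∀ᶠ y in 𝓝 x, (T4_C (S.L y) - z y • (1 : T4M)) *ᵥ T y = 0 ∧
      (T4_C (S.L y) - z y • (1 : T4M)).adjugate = vecMulVec (T y) (T4_C (S.G y) *ᵥ T y))
    (h0 : bil (T4_C (S.G x)) (T x) (T x) ≠ 0) :
    (∀ i j, Dv (fun y => S.T4_beta T y j) (ee i) x - Dv (fun y => S.T4_beta T y i) (ee j) x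
      = 2 * ∑ k, (eps i j k : ℂ) * S.T4_beta T x k) ∧
    ∀ v : V3, Dv z v x = 2 * bil (T4_C (S.G x)) (T4_R (S.lam x)) (T x) *
      (S.T4_beta T x ⬝ᵥ T4_R v) := by
  have hGT : (T4_C (S.G x))ᵀ = T4_C (S.G x) := by rw [← T4_C_transpose, S.symm x hx]
  have hGL : (T4_C (S.G x) * T4_C (S.L x))ᵀ = T4_C (S.G x) * T4_C (S.L x) := by
    rw [← T4_C_mul, ← T4_C_transpose, S.selfadj x hx]
  have hSA : (T4_C (S.G x) * (T4_C (S.L x) - z x • (1 : T4M)))ᵀ
      = T4_C (S.G x) * (T4_C (S.L x) - z x • (1 : T4M)) := by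
    rw [Matrix.mul_sub, Matrix.transpose_sub, hGL]
    simp [hGT]
  have hx0 := hroot.self_of_nhds
  have hbG : ∀ u v : T4V, bil (T4_C (S.G x)) u v = (T4_C (S.G x) *ᵥ u) ⬝ᵥ v := by
    intro u v
    rw [T4_bil_symm hGT, bil, dotProduct_comm]
  refine ⟨?_, ?_⟩
  · intro i j
    obtain ⟨T1, h1, a1, a2, a3, a4, a5⟩ := S.T4_calc hx hz hT hroot (ee i)
    obtain ⟨T2, h2, b1, b2, b3, b4, b5⟩ := S.T4_calc hx hz hT hroot (ee j)
    have hk := (T4_alg hGT hSA hx0.1 hx0.2 two_ne_zero a3 b3 a4 b4 a5 b5 h0).1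
    have hval : ∀ (i j : Fin 3) (T1 : T4V) (h1 : ℂ),
        B0b_H (ee i) x T (T1 - T4_C (S.Gam (ee i) x) *ᵥ T x) →
        B0b_H (ee i) x (fun y => bil (T4_C (S.G y)) (T y) (T y)) h1 →
        Dv (fun y => S.T4_beta T y j) (ee i) x
          = -(h1 / bil (T4_C (S.G x)) (T x) (T x) ^ 2) * (T4_C (S.G x) *ᵥ T x) j
            + (bil (T4_C (S.G x)) (T x) (T x))⁻¹ * ((T4_C (S.G x) *ᵥ T1) j
              + ∑ k, (S.Γ i x k j : ℂ) * (T4_C (S.G x) *ᵥ T x) k) := by
      intro i j T1 h1 c1 c2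
      have dG : B0b_H (ee i) x (fun y => T4_C (S.G y)) (T4_C (Dv S.G (ee i) x)) :=
        (B0b_H_of (S.smG.differentiableAt hx)).lin T4_C
      have c3 := ((T4_H_inv c2 h0).bilin T4_bl_smulV (dG.bilin T4_bl_mulVec c1)).lin
        (LinearMap.proj (R := ℝ) (φ := fun _ : Fin 3 => ℂ) j)
      refine (c3.congr ?_).eq
      simp only [LinearMap.proj_apply, Pi.add_apply, Pi.smul_apply, smul_eq_mul]
      rw [S.metric_v hx, map_add, T4_C_mul, T4_C_mul, T4_C_transpose, Matrix.mulVec_sub,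
        Matrix.add_mulVec, ← Matrix.mulVec_mulVec, ← Matrix.mulVec_mulVec, T4_Gam_ee]
      simp only [Pi.add_apply, Pi.sub_apply]
      have c4 : ((T4_C (S.Γ i x))ᵀ *ᵥ (T4_C (S.G x) *ᵥ T x)) j
          = ∑ k, (S.Γ i x k j : ℂ) * (T4_C (S.G x) *ᵥ T x) k := rfl
      rw [c4]
      ring
    rw [hval i j T1 h1 a1 a2, hval j i T2 h2 b1 b2]
    rw [hbG T1, hbG T2, hbG (T x) (T4_R (ee j)), hbG (T x) (T4_R (ee i)), T4_dot_ee, T4_dot_ee,
      T4_dot_ee, T4_dot_ee] at hk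
    have htor : ∀ k, (S.Γ i x k j : ℂ) = (S.Γ j x k i : ℂ) + 2 * (eps i j k : ℂ) := by
      intro k
      have := S.torsion x hx i j k
      have h3 : S.Γ i x k j = S.Γ j x k i + 2 * eps i j k := by linarith
      rw [h3]
      push_cast
      ring
    have hsum : ∑ k, (S.Γ i x k j : ℂ) * (T4_C (S.G x) *ᵥ T x) k
        = ∑ k, (S.Γ j x k i : ℂ) * (T4_C (S.G x) *ᵥ T x) k
          + 2 * ∑ k, (eps i j k : ℂ) * (T4_C (S.G x) *ᵥ T x) k := by
      rw [Finset.mul_sum, ← Finset.sum_add_distrib]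
      refine Finset.sum_congr rfl fun k _ => ?_
      rw [htor k]
      ring
    have hb : ∑ k, (eps i j k : ℂ) * S.T4_beta T x k
        = (bil (T4_C (S.G x)) (T x) (T x))⁻¹ * ∑ k, (eps i j k : ℂ) * (T4_C (S.G x) *ᵥ T x) k := by
      rw [Finset.mul_sum]
      refine Finset.sum_congr rfl fun k _ => ?_
      unfold T4_beta
      rw [Pi.smul_apply, smul_eq_mul]
      ring
    rw [hb, hsum]
    have h0' : bil (T4_C (S.G x)) (T x) (T x) ≠ 0 := h0
    field_simp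
    linear_combination hk
  · intro v
    obtain ⟨T1, h1, a1, a2, a3, a4, a5⟩ := S.T4_calc hx hz hT hroot v
    have hk := (T4_alg hGT hSA hx0.1 hx0.2 two_ne_zero a3 a3 a4 a4 a5 a5 h0).2
    unfold T4_beta
    rw [smul_dotProduct, smul_eq_mul, ← hbG]
    field_simp
    exact hk

end Geo

end Pool.Agent.helper68.B2
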