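import Pool.Agent.helper52.B2.T4B

/-! # MP_b2b189_gt (S13780), b2:T4, part C: smooth complex eigenvalues and their root fields -/

set_option autoImplicit false

namespace Pool.Agent.helper68.B2

open scoped ContDiff Topology Matrix
open Matrix Set Filter

theorem T4_det_expand (A : T4M) (w : ℂ) : (A - w • (1 : T4M)).det
    = A.det - A.adjugate.trace * w + A.trace * w ^ 2 - w ^ 3 := by
  simp [Matrix.det_fin_three, Matrix.adjugate_fin_three, Matrix.trace, Fin.sum_univ_three]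
  ring

theorem T4_tradj_expand (A : T4M) (w : ℂ) : (A - w • (1 : T4M)).adjugate.trace
    = A.adjugate.trace - 2 * A.trace * w + 3 * w ^ 2 := by
  simp [Matrix.adjugate_fin_three, Matrix.trace, Fin.sum_univ_three]
  ring

theorem T4_trace_expand (A : T4M) (w : ℂ) : (A - w • (1 : T4M)).trace = A.trace - 3 * w := by
  simp [Matrix.trace, mul_comm]

theorem T4_hasDeriv (A : T4M) (w : ℂ) : HasDerivAt (fun w : ℂ => (A - w • (1 : T4M)).det)
    (-(A - w • (1 : T4M)).adjugate.trace) w := by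
  have h1 : (fun w : ℂ => (A - w • (1 : T4M)).det)
      = fun w => A.det - A.adjugate.trace * w + A.trace * w ^ 2 - w ^ 3 := funext (T4_det_expand A)
  rw [h1, T4_tradj_expand]
  have h2 : HasDerivAt (fun w : ℂ => A.det - A.adjugate.trace * w + A.trace * w ^ 2 - w ^ 3)
      (0 - A.adjugate.trace * 1 + A.trace * (((2 : ℕ) : ℂ) * w ^ 1) - ((3 : ℕ) : ℂ) * w ^ 2) w := by
    refine HasDerivAt.sub (HasDerivAt.add (HasDerivAt.sub (hasDerivAt_const w _) ?_) ?_) ?_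
    · exact (hasDerivAt_id w).const_mul _
    · exact (hasDerivAt_pow 2 w).const_mul _
    · exact hasDerivAt_pow 3 w
  refine h2.congr_deriv ?_
  push_cast
  ring

/-- a nonreal root of a real matrix is simple -/
theorem T4_simple (A : M3) {w : ℂ} (hw : w.im ≠ 0) (hd : (T4_C A - w • (1 : T4M)).det = 0) :
    (T4_C A - w • (1 : T4M)).adjugate.trace ≠ 0 := by
  rw [T4_det_expand] at hd
  rw [T4_tradj_expand]
  have hdet : (T4_C A).det = (A.det : ℂ) := by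
    simp [Matrix.det_fin_three, T4_C_apply]
  have htr : (T4_C A).trace = (A.trace : ℂ) := T4_C_trace A
  have hadj : (T4_C A).adjugate.trace = (A.adjugate.trace : ℂ) := by
    simp [Matrix.adjugate_fin_three, T4_C_apply, Matrix.trace, Fin.sum_univ_three]
  rw [hdet, htr, hadj] at hd
  rw [htr, hadj]
  set a := A.det
  set b := A.adjugate.trace
  set c := A.trace
  obtain ⟨s, t⟩ := w
  simp only at hw
  have hre := congrArg Complex.re hd
  have him := congrArg Complex.im hd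
  simp [pow_succ] at hre him
  intro h0
  have h0re := congrArg Complex.re h0
  have h0im := congrArg Complex.im h0
  simp [pow_succ] at h0re h0im
  have h3 : c = 3 * s := by
    have : t * (c - 3 * s) = 0 := by nlinarith
    rcases mul_eq_zero.1 this with h | h
    · exact absurd h hw
    · linarith
  have h4 : t * (t ^ 2) = 0 := by
    rw [h3] at him h0re
    linear_combination (-1 / 2 : ℝ) * (him + t * h0re)
  have : t ^ 3 = 0 := by linarith
  exact hw (pow_eq_zero_iff (by norm_num) |>.1 this)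

theorem T4_ofReal_smooth {F : Type*} [NormedAddCommGroup F] [NormedSpace ℝ F] {f : F → ℝ} {s : Set F}
    (h : ContDiffOn ℝ ∞ f s) : ContDiffOn ℝ ∞ (fun x => (f x : ℂ)) s :=
  Complex.ofRealCLM.contDiff.comp_contDiffOn h

theorem T4_det_smooth {F : Type*} [NormedAddCommGroup F] [NormedSpace ℝ F] {A : F → T4M} {s : Set F}
    (h : ∀ i j, ContDiffOn ℝ ∞ (fun x => A x i j) s) : ContDiffOn ℝ ∞ (fun x => (A x).det) s := by
  simp only [Matrix.det_fin_three]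
  fun_prop

theorem T4_tradj_smooth {F : Type*} [NormedAddCommGroup F] [NormedSpace ℝ F] {A : F → T4M}
    {s : Set F} (h : ∀ i j, ContDiffOn ℝ ∞ (fun x => A x i j) s) (i j : Fin 3) :
    ContDiffOn ℝ ∞ (fun x => (A x).adjugate i j) s := by
  simp only [Matrix.adjugate_fin_three]
  fin_cases i <;> fin_cases j <;> simp <;> fun_prop

namespace Geo
variable (S : Geo)

theorem T4_entry_smooth {V : Set E4} (hV : V ⊆ {0}ᶜ) {z : E4 → ℂ} (hz : ContDiffOn ℝ ∞ z V)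
    (i j : Fin 3) : ContDiffOn ℝ ∞ (fun y => (T4_C (S.L y) - z y • (1 : T4M)) i j) V := by
  have h1 : ContDiffOn ℝ ∞ (fun y => S.L y i j) V := fun y hy =>
    ((contDiffAt_entries.1 (S.smL.contDiffAt (hV hy))) i j).contDiffWithinAt
  have h2 : ContDiffOn ℝ ∞ (fun y => (S.L y i j : ℂ) - z y * (1 : T4M) i j) V :=
    (T4_ofReal_smooth h1).sub (hz.mul contDiffOn_const)
  exact h2

theorem T4_ift {x₀ : E4} (hx₀ : x₀ ≠ 0) {z₀ : ℂ}
    (hd : (T4_C (S.L x₀) - z₀ • (1 : T4M)).det = 0)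
    (hs : (T4_C (S.L x₀) - z₀ • (1 : T4M)).adjugate.trace ≠ 0) :
    ∃ (V : Set E4) (z : E4 → ℂ), IsOpen V ∧ x₀ ∈ V ∧ V ⊆ {0}ᶜ ∧ ContDiffOn ℝ ∞ z V ∧ z x₀ = z₀ ∧
      ∀ x ∈ V, (T4_C (S.L x) - z x • (1 : T4M)).det = 0 := by
  set F : E4 × ℂ → ℂ := fun q => (T4_C (S.L q.1) - q.2 • (1 : T4M)).det with hF
  have hU : IsOpen (({0}ᶜ : Set E4) ×ˢ (univ : Set ℂ)) := isOpen_compl_singleton.prod isOpen_univ
  have hFs : ContDiffOn ℝ ∞ F (({0}ᶜ : Set E4) ×ˢ (univ : Set ℂ)) := by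
    refine T4_det_smooth fun i j => ?_
    have h1 : ContDiffOn ℝ ∞ (fun y => S.L y i j) {0}ᶜ := fun y hy =>
      ((contDiffAt_entries.1 (S.smL.contDiffAt hy)) i j).contDiffWithinAt
    have h2 : ContDiffOn ℝ ∞ (fun q : E4 × ℂ => S.L q.1 i j) (({0}ᶜ : Set E4) ×ˢ (univ : Set ℂ)) :=
      h1.comp contDiffOn_fst (fun q hq => hq.1)
    have h3 : ContDiffOn ℝ ∞ (fun q : E4 × ℂ => (S.L q.1 i j : ℂ) - q.2 * (1 : T4M) i j)
        (({0}ᶜ : Set E4) ×ˢ (univ : Set ℂ)) :=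
      (T4_ofReal_smooth h2).sub (contDiffOn_snd.mul contDiffOn_const)
    exact h3
  have hmem : (x₀, z₀) ∈ (({0}ᶜ : Set E4) ×ˢ (univ : Set ℂ)) := ⟨hx₀, trivial⟩
  have hFd : DifferentiableAt ℝ F (x₀, z₀) :=
    (hFs.contDiffAt (hU.mem_nhds hmem)).differentiableAt (by simp)
  have hder : ∀ h : ℂ, fderiv ℝ F (x₀, z₀) (0, h)
      = -(T4_C (S.L x₀) - z₀ • (1 : T4M)).adjugate.trace * h := by
    intro h
    have h1 : HasFDerivAt (fun w : ℂ => (x₀, w)) (ContinuousLinearMap.inr ℝ E4 ℂ) z₀ :=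
      hasFDerivAt_prodMk_right x₀ z₀
    have h2 := (hFd.hasFDerivAt.comp z₀ h1)
    have h3 := ((T4_hasDeriv (T4_C (S.L x₀)) z₀).hasFDerivAt.restrictScalars ℝ)
    have h4 := h2.unique h3
    have h5 := congrArg (fun f => f h) h4
    simp at h5
    rw [h5]
    ring
  obtain ⟨V, hVo, hxV, z, hz, hz0, hV⟩ := W8_ift_exists F _ hU hFs x₀ z₀ hmem hd (by
    intro a b hab
    simp only [hder] at hab
    exact mul_left_cancel₀ (neg_ne_zero.2 hs) hab)
  exact ⟨V, z, hVo, hxV, fun x hx => (hV x hx).1.1, hz, hz0, fun x hx => (hV x hx).2⟩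

/-- homogeneous version -/
theorem T4_ift_hom {x₀ : E4} (hx₀ : x₀ ≠ 0) {z₀ : ℂ}
    (hd : (T4_C (S.L x₀) - z₀ • (1 : T4M)).det = 0)
    (hs : (T4_C (S.L x₀) - z₀ • (1 : T4M)).adjugate.trace ≠ 0) :
    ∃ (V : Set E4) (z : E4 → ℂ), IsOpen V ∧ x₀ ∈ V ∧ V ⊆ {0}ᶜ ∧ Hom z ∧ ContDiffOn ℝ ∞ z V ∧
      z x₀ = z₀ ∧ ∀ x ∈ V, (T4_C (S.L x) - z x • (1 : T4M)).det = 0 := by
  obtain ⟨V, z, hVo, hxV, hV0, hz, hz0, hV⟩ := S.T4_ift hx₀ hd hs
  set ρ : E4 → E4 := fun x => (‖x₀‖ / ‖x‖) • x with hρ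
  have hρs : ContDiffOn ℝ ∞ ρ {0}ᶜ := by
    intro x hx
    have h1 : ContDiffAt ℝ ∞ (fun x : E4 => ‖x‖) x := contDiffAt_norm ℝ hx
    exact ((contDiffAt_const.div h1 (norm_ne_zero_iff.2 hx)).smul contDiffAt_id).contDiffWithinAt
  have hρ0 : ρ x₀ = x₀ := by
    simp [hρ, div_self (norm_ne_zero_iff.2 hx₀)]
  have hρh : ∀ t : ℝ, 0 < t → ∀ x, ρ (t • x) = ρ x := by
    intro t ht x
    simp only [hρ, norm_smul, smul_smul, Real.norm_eq_abs, abs_of_pos ht]
    congr 1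
    by_cases hx : ‖x‖ = 0
    · simp [hx]
    · field_simp
  refine ⟨{0}ᶜ ∩ ρ ⁻¹' V, fun x => z (ρ x), ?_, ⟨hx₀, ?_⟩, fun x hx => hx.1, ?_, ?_, ?_, ?_⟩
  · exact hρs.continuousOn.isOpen_inter_preimage isOpen_compl_singleton hVo
  · show ρ x₀ ∈ V
    rw [hρ0]; exact hxV
  · intro t ht x
    show z (ρ (t • x)) = z (ρ x)
    rw [hρh t ht x]
  · exact hz.comp (hρs.mono fun x hx => hx.1) (fun x hx => hx.2)
  · show z (ρ x₀) = z₀
    rw [hρ0, hz0]
  · intro x hx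
    have h1 := hV (ρ x) hx.2
    have h2 : S.L (ρ x) = S.L x := S.homL _ (div_pos (norm_pos_iff.2 hx₀) (norm_pos_iff.2 hx.1)) x
    rw [h2] at h1
    exact h1

end Geo

end Pool.Agent.helper68.B2
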