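import Pool.Agent.helper52.B2.T4C
import Pool.Agent.helper80.B2.W1
import Pool.Agent.helper58.B2.W3

/-! # MP_b2b189_gt (S13780), b2:T4, part D: complex root fields and local constancy -/

set_option autoImplicit false

namespace Pool.Agent.helper68.B2

open scoped ContDiff Topology Matrix
open Matrix Set Filter

theorem T4_adj_symm {G A : T4M} (hG : Gᵀ = G) (hA : (G * A)ᵀ = G * A) :
    (G * A.adjugate)ᵀ = G * A.adjugate := by
  have h : Aᵀ * G = G * A := by rw [← hA, Matrix.transpose_mul, hG]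
  have h2 : (G * (A * A))ᵀ = G * (A * A) := by
    rw [Matrix.transpose_mul, Matrix.transpose_mul, hG, Matrix.mul_assoc, h, ← Matrix.mul_assoc, h,
      Matrix.mul_assoc]
  rw [T4_adj_formula A, Matrix.mul_add, Matrix.mul_sub, Matrix.mul_smul, Matrix.mul_smul,
    Matrix.mul_one, Matrix.transpose_add, Matrix.transpose_sub, Matrix.transpose_smul,
    Matrix.transpose_smul, h2, hA, hG]

namespace Geo
variable (S : Geo)

theorem T4_G_symm {x : E4} (hx : x ≠ 0) : (T4_C (S.G x))ᵀ = T4_C (S.G x) := by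
  rw [← T4_C_transpose, S.symm x hx]

theorem T4_GL_symm {x : E4} (hx : x ≠ 0) :
    (T4_C (S.G x) * T4_C (S.L x))ᵀ = T4_C (S.G x) * T4_C (S.L x) := by
  rw [← T4_C_mul, ← T4_C_transpose, S.selfadj x hx]

theorem T4_GA_symm {x : E4} (hx : x ≠ 0) (w : ℂ) :
    (T4_C (S.G x) * (T4_C (S.L x) - w • (1 : T4M)))ᵀ
      = T4_C (S.G x) * (T4_C (S.L x) - w • (1 : T4M)) := by
  rw [Matrix.mul_sub, Matrix.transpose_sub, S.T4_GL_symm hx]
  simp [S.T4_G_symm hx]

theorem T4_G_det {x : E4} (hx : x ≠ 0) : (T4_C (S.G x)).det ≠ 0 := by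
  have h1 : (T4_C (S.G x)).det = ((S.G x).det : ℂ) := by
    simp [Matrix.det_fin_three, T4_C_apply]
  rw [h1]
  exact_mod_cast (S.det_neg x hx).ne

theorem T4_field {V : Set E4} {z : E4 → ℂ} {x₀ : E4} (hVo : IsOpen V) (hxV : x₀ ∈ V)
    (hV0 : V ⊆ {0}ᶜ) (hzh : Hom z) (hz : ContDiffOn ℝ ∞ z V)
    (hd : ∀ x ∈ V, (T4_C (S.L x) - z x • (1 : T4M)).det = 0)
    (hs : (T4_C (S.L x₀) - z x₀ • (1 : T4M)).adjugate.trace ≠ 0) :
    ∃ (U : Set E4) (T : E4 → T4V), IsOpen U ∧ x₀ ∈ U ∧ U ⊆ V ∧ Hom T ∧ ContDiffOn ℝ ∞ T U ∧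
      ∀ y ∈ U, (T4_C (S.L y) - z y • (1 : T4M)) *ᵥ T y = 0 ∧
        (T4_C (S.L y) - z y • (1 : T4M)).adjugate = vecMulVec (T y) (T4_C (S.G y) *ᵥ T y) ∧
        bil (T4_C (S.G y)) (T y) (T y) ≠ 0 := by
  have hx₀ : x₀ ≠ 0 := hV0 hxV
  -- the vector c
  obtain ⟨c, hc⟩ : ∃ c : T4V, c ⬝ᵥ ((T4_C (S.G x₀) *
      (T4_C (S.L x₀) - z x₀ • (1 : T4M)).adjugate) *ᵥ c) = 1 := by
    obtain ⟨c', hc'⟩ := T4_exists_c (T4_adj_symm (S.T4_G_symm hx₀) (S.T4_GA_symm hx₀ (z x₀))) (by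
      intro h0
      apply hs
      have h1 : (T4_C (S.L x₀) - z x₀ • (1 : T4M)).adjugate = 0 := by
        have h2 := congrArg (fun M => (T4_C (S.G x₀))⁻¹ * M) h0
        simp only [Matrix.mul_zero] at h2
        rwa [← Matrix.mul_assoc, Matrix.nonsing_inv_mul _ (by simpa using S.T4_G_det hx₀),
          Matrix.one_mul] at h2
      rw [h1, Matrix.trace_zero])
    obtain ⟨s, hs2⟩ := IsAlgClosed.exists_pow_nat_eq
      ((c' ⬝ᵥ ((T4_C (S.G x₀) * (T4_C (S.L x₀) - z x₀ • (1 : T4M)).adjugate) *ᵥ c'))⁻¹)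
      (n := 2) (by norm_num)
    refine ⟨s • c', ?_⟩
    rw [Matrix.mulVec_smul, dotProduct_smul, smul_dotProduct, smul_eq_mul, smul_eq_mul,
      ← mul_assoc, ← pow_two, hs2, inv_mul_cancel₀ hc']
  set A : E4 → T4M := fun y => T4_C (S.L y) - z y • (1 : T4M) with hA
  set q : E4 → ℂ := fun y => c ⬝ᵥ ((T4_C (S.G y) * (A y).adjugate) *ᵥ c) with hq
  have hAe := S.T4_entry_smooth hV0 hz
  have hKe : ∀ i j, ContDiffOn ℝ ∞ (fun y => (A y).adjugate i j) V := T4_tradj_smooth hAe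
  have hGe : ∀ i j, ContDiffOn ℝ ∞ (fun y => T4_C (S.G y) i j) V := by
    intro i j
    have h1 : ContDiffOn ℝ ∞ (fun y => S.G y i j) V := fun y hy =>
      ((contDiffAt_entries.1 (S.smG.contDiffAt (hV0 hy))) i j).contDiffWithinAt
    exact T4_ofReal_smooth h1
  have hqs : ContDiffOn ℝ ∞ q V := by
    simp only [hq, Matrix.mulVec, dotProduct, Matrix.mul_apply]
    refine ContDiffOn.sum fun i _ => contDiffOn_const.mul ?_
    refine ContDiffOn.sum fun j _ => ContDiffOn.mul ?_ contDiffOn_const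
    exact ContDiffOn.sum fun k _ => (hGe i k).mul (hKe k j)
  have hts : ContDiffOn ℝ ∞ (fun y => (A y).adjugate.trace) V := by
    simp only [Matrix.trace]
    exact ContDiffOn.sum fun i _ => hKe i i
  have hKh : ∀ t : ℝ, 0 < t → ∀ y, A (t • y) = A y := by
    intro t ht y
    simp only [hA]
    rw [S.homL t ht y, hzh t ht y]
  refine ⟨(V ∩ q ⁻¹' Complex.slitPlane) ∩ (V ∩ (fun y => (A y).adjugate.trace) ⁻¹' {0}ᶜ),
    fun y => Complex.exp (-(1 / 2) * Complex.log (q y)) • ((A y).adjugate *ᵥ c), ?_, ?_, ?_, ?_, ?_, ?_⟩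
  · exact (hqs.continuousOn.isOpen_inter_preimage hVo Complex.isOpen_slitPlane).inter
      (hts.continuousOn.isOpen_inter_preimage hVo isOpen_compl_singleton)
  · refine ⟨⟨hxV, ?_⟩, hxV, hs⟩
    show q x₀ ∈ Complex.slitPlane
    simp only [hq]
    rw [hc]
    exact Complex.one_mem_slitPlane
  · exact fun y hy => hy.1.1
  · intro t ht y
    show Complex.exp (-(1 / 2) * Complex.log (q (t • y))) • ((A (t • y)).adjugate *ᵥ c)
      = Complex.exp (-(1 / 2) * Complex.log (q y)) • ((A y).adjugate *ᵥ c)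
    have h1 : q (t • y) = q y := by
      simp only [hq]
      rw [hKh t ht y, S.homG t ht y]
    rw [h1, hKh t ht y]
  · have hlog : ContDiffOn ℝ ∞ (fun y => Complex.log (q y)) (V ∩ q ⁻¹' Complex.slitPlane) := by
      intro y hy
      have h1 : ContDiffAt ℝ ∞ Complex.log (q y) :=
        (Complex.contDiffAt_log hy.2).restrict_scalars ℝ
      exact (h1.comp y (hqs.contDiffAt (hVo.mem_nhds hy.1))).contDiffWithinAt
    have hexp : ContDiffOn ℝ ∞ (fun y => Complex.exp (-(1 / 2) * Complex.log (q y)))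
        (V ∩ q ⁻¹' Complex.slitPlane) :=
      (Complex.contDiff_exp (𝕜 := ℝ)).comp_contDiffOn (contDiffOn_const.mul hlog)
    have h2 : ContDiffOn ℝ ∞ (fun y => (A y).adjugate *ᵥ c) V := by
      rw [contDiffOn_pi]
      intro i
      simp only [Matrix.mulVec, dotProduct]
      exact ContDiffOn.sum fun k _ => (hKe i k).mul contDiffOn_const
    exact (hexp.mono fun y hy => hy.1).smul (h2.mono fun y hy => hy.1.1)
  · intro y hy
    have hyV : y ∈ V := hy.1.1
    have hy0 : y ≠ 0 := hV0 hyV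
    have hq0 : q y ≠ 0 := Complex.slitPlane_ne_zero hy.1.2
    set r := Complex.exp (-(1 / 2) * Complex.log (q y)) with hr
    have hrr : r * r = (q y)⁻¹ := by
      rw [hr, ← Complex.exp_add]
      have h1 : -(1 / 2) * Complex.log (q y) + -(1 / 2) * Complex.log (q y)
          = -Complex.log (q y) := by ring
      rw [h1, Complex.exp_neg, Complex.exp_log hq0]
    have hadj : (A y).adjugate = vecMulVec (r • ((A y).adjugate *ᵥ c))
        (T4_C (S.G y) *ᵥ (r • ((A y).adjugate *ᵥ c))) := by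
      rw [Matrix.mulVec_smul, Matrix.smul_vecMulVec, Matrix.vecMulVec_smul, smul_smul, hrr,
        T4_root (T4_adj_symm (S.T4_G_symm hy0) (S.T4_GA_symm hy0 (z y))) (hd y hyV) c]
      show _ = (q y)⁻¹ • (q y • (A y).adjugate)
      rw [smul_smul, inv_mul_cancel₀ hq0, one_smul]
    refine ⟨?_, hadj, ?_⟩
    · show (A y) *ᵥ (r • ((A y).adjugate *ᵥ c)) = 0
      rw [Matrix.mulVec_smul, Matrix.mulVec_mulVec, Matrix.mul_adjugate]
      have : (A y).det = 0 := hd y hyV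
      rw [this]
      simp
    · have h1 := congrArg Matrix.trace hadj
      have h2 : ∀ a b : T4V, (vecMulVec a b).trace = a ⬝ᵥ b := by
        intro a b
        simp [Matrix.trace, vecMulVec_apply, dotProduct]
      rw [h2] at h1
      show (r • ((A y).adjugate *ᵥ c)) ⬝ᵥ (T4_C (S.G y) *ᵥ (r • ((A y).adjugate *ᵥ c))) ≠ 0
      rw [← h1]
      exact hy.2.2

end Geo

end Pool.Agent.helper68.B2
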