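import Pool.Agent.helper52.B2.T4D

/-! # MP_b2b189_gt (S13780), b2:T4, part E: local constancy of a complex eigenvalue of maximal imaginary part -/

set_option autoImplicit false

namespace Pool.Agent.helper68.B2

open scoped ContDiff Topology Matrix
open Matrix Set Filter

theorem T4_form_comps (α : E4 → V3) (x w : E4) : form α x w = α x ⬝ᵥ comps x w := by
  rw [W1_form_apply]
  simp only [dotProduct, comps]
  refine Finset.sum_congr rfl fun i _ => ?_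
  ring

theorem T4_form_smooth {α : E4 → V3} {U : Set E4} (hU0 : U ⊆ {0}ᶜ) (hα : ContDiffOn ℝ ∞ α U) :
    ContDiffOn ℝ ∞ (form α) U := by
  unfold form
  refine ContDiffOn.sum fun i _ => ?_
  have h1 : ContDiffOn ℝ ∞ (fun y => α y i) U := contDiffOn_pi.1 hα i
  have h2 : ContDiffOn ℝ ∞ (fun y : E4 => ‖y‖ ^ 2) U := (contDiff_norm_sq ℝ).contDiffOn
  have h3 : ∀ y ∈ U, ‖y‖ ^ 2 ≠ 0 := fun y hy => pow_ne_zero 2 (norm_ne_zero_iff.2 (hU0 hy))
  refine (h1.div h2 h3).smul ?_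
  exact ((innerSL ℝ (E := E4)).contDiff.comp (J i).contDiff).contDiffOn

theorem T4_prim_smooth {α : E4 → V3} {N : Set E4} (hN : IsOpen N) (hN0 : N ⊆ {0}ᶜ)
    (hα : ContDiffOn ℝ ∞ α N) {f : E4 → ℝ} (hf : ∀ y ∈ N, HasFDerivAt f (form α y) y) :
    ContDiffOn ℝ ∞ f N := by
  rw [contDiffOn_infty_iff_fderiv_of_isOpen hN]
  refine ⟨fun y hy => (hf y hy).differentiableAt.differentiableWithinAt, ?_⟩
  refine (T4_form_smooth hN0 hα).congr fun y hy => (hf y hy).fderiv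

namespace Geo
variable (S : Geo)

theorem T4_beta_smooth {U : Set E4} (hU0 : U ⊆ {0}ᶜ) {T : E4 → T4V} (hT : ContDiffOn ℝ ∞ T U)
    (h0 : ∀ y ∈ U, bil (T4_C (S.G y)) (T y) (T y) ≠ 0) (i : Fin 3) :
    ContDiffOn ℝ ∞ (fun y => S.T4_beta T y i) U := by
  have hGe : ∀ i j, ContDiffOn ℝ ∞ (fun y => T4_C (S.G y) i j) U := by
    intro i j
    have h1 : ContDiffOn ℝ ∞ (fun y => S.G y i j) U := fun y hy =>
      ((contDiffAt_entries.1 (S.smG.contDiffAt (hU0 hy))) i j).contDiffWithinAt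
    exact T4_ofReal_smooth h1
  have hTe : ∀ i, ContDiffOn ℝ ∞ (fun y => T y i) U := contDiffOn_pi.1 hT
  have h2 : ∀ i, ContDiffOn ℝ ∞ (fun y => (T4_C (S.G y) *ᵥ T y) i) U := by
    intro i
    simp only [Matrix.mulVec, dotProduct]
    exact ContDiffOn.sum fun k _ => (hGe i k).mul (hTe k)
  have h3 : ContDiffOn ℝ ∞ (fun y => bil (T4_C (S.G y)) (T y) (T y)) U := by
    simp only [bil, dotProduct]
    exact ContDiffOn.sum fun k _ => (hTe k).mul (h2 k)
  exact (h3.inv h0).mul (h2 i)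

theorem T4_beta_hom {T : E4 → T4V} (hT : Hom T) : Hom (S.T4_beta T) := by
  intro t ht y
  unfold T4_beta
  rw [S.homG t ht y, hT t ht y]

/-- the form `β` at a nonreal root is onto -/
theorem T4_surj {x : E4} (hx : x ≠ 0) {z : ℂ} (hz : z.im ≠ 0) {T : E4 → T4V}
    (hT : (T4_C (S.L x) - z • (1 : T4M)) *ᵥ T x = 0)
    (h0 : bil (T4_C (S.G x)) (T x) (T x) ≠ 0) (c : ℂ) :
    ∃ v : V3, S.T4_beta T x ⬝ᵥ T4_R v = c := by
  have hGs := S.T4_G_symm hx
  have hbG : ∀ u v : T4V, bil (T4_C (S.G x)) u v = (T4_C (S.G x) *ᵥ u) ⬝ᵥ v := by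
    intro u v
    rw [T4_bil_symm hGs, bil, dotProduct_comm]
  have hLT : T4_C (S.L x) *ᵥ T x = z • T x := by
    have h1 := hT
    rw [Matrix.sub_mulVec, Matrix.smul_mulVec, Matrix.one_mulVec, sub_eq_zero] at h1
    exact h1
  set Tb : T4V := fun i => (starRingEnd ℂ) (T x i) with hTb
  have hLTb : T4_C (S.L x) *ᵥ Tb = (starRingEnd ℂ) z • Tb := by
    ext i
    have h1 := congrArg (starRingEnd ℂ) (congrFun hLT i)
    simp only [Matrix.mulVec, dotProduct, Pi.smul_apply, smul_eq_mul, map_sum, map_mul] at h1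
    simp only [Matrix.mulVec, dotProduct, Pi.smul_apply, smul_eq_mul, hTb]
    rw [← h1]
    refine Finset.sum_congr rfl fun k _ => ?_
    rw [T4_C_apply, Complex.conj_ofReal]
  have hort : bil (T4_C (S.G x)) (T x) Tb = 0 := by
    have h1 := T4_bil_sa hGs (S.T4_GL_symm hx) (T x) Tb
    rw [hLT, hLTb, T4_bil_smul_left, T4_bil_smul_right] at h1
    have h2 : (z - (starRingEnd ℂ) z) * bil (T4_C (S.G x)) (T x) Tb = 0 := by
      linear_combination h1
    rcases mul_eq_zero.1 h2 with h3 | h3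
    · exfalso
      have := congrArg Complex.im h3
      simp at this
      apply hz
      linarith
    · exact h3
  have hb1 : S.T4_beta T x ⬝ᵥ T x = 1 := by
    unfold T4_beta
    rw [smul_dotProduct, smul_eq_mul, ← hbG, inv_mul_cancel₀ h0]
  have hb2 : S.T4_beta T x ⬝ᵥ Tb = 0 := by
    unfold T4_beta
    rw [smul_dotProduct, smul_eq_mul, ← hbG, hort, mul_zero]
  set a : V3 := fun i => (T x i).re with ha
  set b : V3 := fun i => (T x i).im with hb
  have e1 : T x = T4_R a + Complex.I • T4_R b := by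
    ext i
    simp only [Pi.add_apply, Pi.smul_apply, smul_eq_mul, T4_R_apply, ha, hb]
    rw [mul_comm, Complex.re_add_im]
  have e2 : Tb = T4_R a - Complex.I • T4_R b := by
    ext i
    simp only [Pi.sub_apply, Pi.smul_apply, smul_eq_mul, T4_R_apply, ha, hb, hTb]
    apply Complex.ext <;> simp
  rw [e1, dotProduct_add, dotProduct_smul, smul_eq_mul] at hb1
  rw [e2, dotProduct_sub, dotProduct_smul, smul_eq_mul] at hb2
  have f1 : S.T4_beta T x ⬝ᵥ T4_R a = 1 / 2 := by linear_combination (1 / 2 : ℂ) * (hb1 + hb2)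
  have f2 : S.T4_beta T x ⬝ᵥ T4_R b = -(Complex.I / 2) := by
    have h1 : Complex.I * (S.T4_beta T x ⬝ᵥ T4_R b) = 1 / 2 := by
      linear_combination (1 / 2 : ℂ) * (hb1 - hb2)
    linear_combination (-Complex.I) * h1 + (S.T4_beta T x ⬝ᵥ T4_R b) * Complex.I_sq
  refine ⟨(2 * c.re) • a - (2 * c.im) • b, ?_⟩
  rw [map_sub, map_smul, map_smul, dotProduct_sub, dotProduct_smul, dotProduct_smul, f1, f2]
  apply Complex.ext <;> simp <;> ring

theorem T4_dot_re (u : T4V) (v : V3) : (u ⬝ᵥ T4_R v).re = (fun i => (u i).re) ⬝ᵥ v := by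
  simp [dotProduct, T4_R_apply]

theorem T4_dot_im (u : T4V) (v : V3) : (u ⬝ᵥ T4_R v).im = (fun i => (u i).im) ⬝ᵥ v := by
  simp [dotProduct, T4_R_apply]

theorem T4_local {x₀ : E4} (hx₀ : x₀ ≠ 0) {z₀ : ℂ} (him : 0 < z₀.im)
    (hd₀ : (T4_C (S.L x₀) - z₀ • (1 : T4M)).det = 0)
    (hmax : ∀ y : E4, y ≠ 0 → ∀ w : ℂ, (T4_C (S.L y) - w • (1 : T4M)).det = 0 → w.im ≤ z₀.im) :
    ∀ᶠ y in 𝓝 x₀, (T4_C (S.L y) - z₀ • (1 : T4M)).det = 0 := by
  have hs₀ := T4_simple (S.L x₀) him.ne' hd₀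
  obtain ⟨V, z, hVo, hxV, hV0, hzh, hz, hz0, hd⟩ := S.T4_ift_hom hx₀ hd₀ hs₀
  obtain ⟨U, T, hUo, hxU, hUV, hTh, hT, hU⟩ := S.T4_field hVo hxV hV0 hzh hz hd (by rw [hz0]; exact hs₀)
  have hU0 : U ⊆ {0}ᶜ := hUV.trans hV0
  have hβs := S.T4_beta_smooth hU0 hT (fun y hy => (hU y hy).2.2)
  have hβh := S.T4_beta_hom hTh
  have hzd : ∀ y ∈ U, DifferentiableAt ℝ z y := fun y hy =>
    (hz.contDiffAt (hVo.mem_nhds (hUV hy))).differentiableAt (by simp)
  have hTd : ∀ y ∈ U, DifferentiableAt ℝ T y := fun y hy =>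
    (hT.contDiffAt (hUo.mem_nhds hy)).differentiableAt (by simp)
  have hcl := fun y (hy : y ∈ U) => S.T4_closedC (hU0 hy) (hzd y hy) (hTd y hy)
    (by
      filter_upwards [hUo.mem_nhds hy] with y' hy'
      exact ⟨(hU y' hy').1, (hU y' hy').2.1⟩) (hU y hy).2.2
  set α₁ : E4 → V3 := fun y i => (S.T4_beta T y i).re with hα₁
  set α₂ : E4 → V3 := fun y i => (S.T4_beta T y i).im with hα₂
  have hα₁s : ContDiffOn ℝ ∞ α₁ U := contDiffOn_pi.2 fun i =>
    Complex.reCLM.contDiff.comp_contDiffOn (hβs i)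
  have hα₂s : ContDiffOn ℝ ∞ α₂ U := contDiffOn_pi.2 fun i =>
    Complex.imCLM.contDiff.comp_contDiffOn (hβs i)
  have hα₁h : Hom α₁ := fun t ht y => by
    funext i
    show (S.T4_beta T (t • y) i).re = _
    rw [hβh t ht y]
  have hα₂h : Hom α₂ := fun t ht y => by
    funext i
    show (S.T4_beta T (t • y) i).im = _
    rw [hβh t ht y]
  have hβd : ∀ y ∈ U, ∀ i, DifferentiableAt ℝ (fun y => S.T4_beta T y i) y := fun y hy i =>
    ((hβs i).contDiffAt (hUo.mem_nhds hy)).differentiableAt (by simp)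
  have hc₁ : ∀ y ∈ U, ∀ i j, Dv (fun y => α₁ y j) (ee i) y - Dv (fun y => α₁ y i) (ee j) y
      = 2 * ∑ k, eps i j k * α₁ y k := by
    intro y hy i j
    have h1 := fun (i : Fin 3) (v : V3) =>
      ((B0b_H_of (v := v) (hβd y hy i)).lin Complex.reLm).eq
    have h2 := congrArg Complex.re ((hcl y hy).1 i j)
    have h3 : Dv (fun y => α₁ y j) (ee i) y = (Dv (fun y => S.T4_beta T y j) (ee i) y).re := h1 j _
    have h4 : Dv (fun y => α₁ y i) (ee j) y = (Dv (fun y => S.T4_beta T y i) (ee j) y).re := h1 i _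
    rw [h3, h4, ← Complex.sub_re, h2]
    simp [hα₁]
  have hc₂ : ∀ y ∈ U, ∀ i j, Dv (fun y => α₂ y j) (ee i) y - Dv (fun y => α₂ y i) (ee j) y
      = 2 * ∑ k, eps i j k * α₂ y k := by
    intro y hy i j
    have h1 := fun (i : Fin 3) (v : V3) =>
      ((B0b_H_of (v := v) (hβd y hy i)).lin Complex.imLm).eq
    have h2 := congrArg Complex.im ((hcl y hy).1 i j)
    have h3 : Dv (fun y => α₂ y j) (ee i) y = (Dv (fun y => S.T4_beta T y j) (ee i) y).im := h1 j _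
    have h4 : Dv (fun y => α₂ y i) (ee j) y = (Dv (fun y => S.T4_beta T y i) (ee j) y).im := h1 i _
    rw [h3, h4, ← Complex.sub_im, h2]
    simp [hα₂]
  obtain ⟨W₁, hW₁, hW₁U, f₁, hf₁⟩ := W1_poincare α₁ U hUo (fun h => hU0 h rfl)
    (hα₁s.of_le (by simp)) (fun y hy => hα₁h.radial (hU0 hy)) hc₁ x₀ hxU
  obtain ⟨W₂, hW₂, hW₂U, f₂, hf₂⟩ := W1_poincare α₂ U hUo (fun h => hU0 h rfl)
    (hα₂s.of_le (by simp)) (fun y hy => hα₂h.radial (hU0 hy)) hc₂ x₀ hxU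
  set N := interior (W₁ ∩ W₂) with hN
  have hNo : IsOpen N := isOpen_interior
  have hxN : x₀ ∈ N := mem_interior_iff_mem_nhds.2 (inter_mem hW₁ hW₂)
  have hNW : ∀ y ∈ N, y ∈ W₁ ∧ y ∈ W₂ := fun y hy =>
    (interior_subset hy : y ∈ W₁ ∩ W₂)
  have hNU : N ⊆ U := fun y hy => hW₁U (hNW y hy).1
  have hN0 : N ⊆ {0}ᶜ := hNU.trans hU0
  have hf₁s := T4_prim_smooth hNo hN0 (hα₁s.mono hNU) (fun y hy => hf₁ y (hNW y hy).1)
  have hf₂s := T4_prim_smooth hNo hN0 (hα₂s.mono hNU) (fun y hy => hf₂ y (hNW y hy).2)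
  set ζ : E4 → ℂ := fun y => (f₁ y : ℂ) + (f₂ y : ℂ) * Complex.I with hζ
  have hζs : ContDiffOn ℝ ∞ ζ N :=
    (T4_ofReal_smooth hf₁s).add ((T4_ofReal_smooth hf₂s).mul contDiffOn_const)
  have hζd : ∀ y ∈ N, ∀ w, fderiv ℝ ζ y w = S.T4_beta T y ⬝ᵥ T4_R (comps y w) := by
    intro y hy w
    have h1 : HasFDerivAt (fun y => (f₁ y : ℂ)) (Complex.ofRealCLM.comp (form α₁ y)) y :=
      Complex.ofRealCLM.hasFDerivAt.comp y (hf₁ y (hNW y hy).1)
    have h2 : HasFDerivAt (fun y => (f₂ y : ℂ)) (Complex.ofRealCLM.comp (form α₂ y)) y :=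
      Complex.ofRealCLM.hasFDerivAt.comp y (hf₂ y (hNW y hy).2)
    have h3 := (h1.add (h2.mul_const Complex.I)).fderiv
    have h4 : fderiv ℝ ζ y w = ((form α₁ y w : ℝ) : ℂ) + Complex.I * ((form α₂ y w : ℝ) : ℂ) := by
      show fderiv ℝ (fun y => (f₁ y : ℂ) + (f₂ y : ℂ) * Complex.I) y w = _
      have h5 : fderiv ℝ (fun y => (f₁ y : ℂ) + (f₂ y : ℂ) * Complex.I) y
        = Complex.ofRealCLM.comp (form α₁ y) + Complex.I • Complex.ofRealCLM.comp (form α₂ y) := h3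
      rw [h5]
      simp
    rw [h4, T4_form_comps, T4_form_comps]
    apply Complex.ext
    · rw [T4_dot_re]
      simp [hα₁]
    · rw [T4_dot_im]
      simp [hα₂]
  have hloc : ∀ᶠ y in 𝓝 x₀, z y = z x₀ := by
    refine W3_holo x₀ N (hNo.mem_nhds hxN) ζ z
      (fun y => 2 * bil (T4_C (S.G y)) (T4_R (S.lam y)) (T y)) hζs ?_ ?_ ?_
    · intro y hy
      have h1 := (hzd y (hNU hy)).hasFDerivAt
      have h2 : fderiv ℝ z y = (2 * bil (T4_C (S.G y)) (T4_R (S.lam y)) (T y)) • fderiv ℝ ζ y := by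
        ext1 w
        rw [fderiv_decomp z (hN0 hy) w, hzh.radial (hN0 hy), smul_zero, add_zero,
          (hcl y (hNU hy)).2, _root_.smul_apply, hζd y hy w, smul_eq_mul]
      rw [h2] at h1
      exact h1
    · intro c
      obtain ⟨v, hv⟩ := S.T4_surj hx₀ him.ne' (by rw [← hz0]; exact (hU x₀ hxU).1) (hU x₀ hxU).2.2 c
      exact ⟨fld v x₀, by rw [hζd x₀ hxN, comps_fld v hx₀, hv]⟩
    · intro y hy
      rw [hz0]
      exact hmax y (hN0 hy) (z y) (hd y (hUV (hNU hy)))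
  filter_upwards [hloc, hVo.mem_nhds hxV] with y h1 h2
  have h3 := hd y h2
  rw [h1, hz0] at h3
  exact h3

end Geo

end Pool.Agent.helper68.B2
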